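import Mathlib

/-!
# The hierarchical preferential attachment model: definitions

Nodes are numbered `0, 1, 2, …` in the order of arrival, so node `k` here is node `k + 1` of the
problem file; after `m` steps the nodes `0, …, m - 1` have arrived.
-/

namespace Pool.Agent.H973.Hpam

open Finset Filter Topology

/-- A parameter pair `(π, γ)` with `K` labels. -/
structure Param (K : ℕ) where
  /-- the label proportions `π` -/
  pi : Fin K → ℝ
  /-- the affinity matrix `γ` -/
  gam : Fin K → Fin K → ℝ

/-- `π` is a probability vector and `γ` is a symmetric matrix with positive entries. -/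
structure Param.Valid {K : ℕ} (θ : Param K) : Prop where
  pi_nonneg : ∀ j, 0 ≤ θ.pi j
  pi_sum : ∑ j, θ.pi j = 1
  gam_pos : ∀ i j, 0 < θ.gam i j
  gam_symm : ∀ i j, θ.gam i j = θ.gam j i

/-- Observed histories after `n` steps: `a k ≤ k` is the (number of the) node that node `k` links
to, and `a k = k` means that node `k` creates a loop. -/
abbrev Hist (n : ℕ) : Type := (k : Fin n) → Fin (k.val + 1)

/-- The node that node `k` links to, as an element of `Fin n`. -/
def target {n : ℕ} (a : Hist n) (k : Fin n) : Fin n := ⟨(a k).val, by omega⟩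

/-- `deg a m v` is the degree of node `v` after `m` steps (a loop counts twice). -/
def deg {n : ℕ} (a : Hist n) (m : ℕ) (v : Fin n) : ℕ :=
  ∑ k : Fin n, if k.val < m then (if k = v then 1 else 0) + (if target a k = v then 1 else 0)
    else 0

/-- The normalising constant `Z = ∑_{v < k} γ_{l_k l_v} d_k(v) + γ_{l_k l_k}` met by node `k`. -/
noncomputable def normZ {K n : ℕ} (θ : Param K) (a : Hist n) (l : Fin n → Fin K) (k : Fin n) : ℝ :=
  (∑ v : Fin n, if v < k then θ.gam (l k) (l v) * (deg a k.val v : ℝ) else 0) + θ.gam (l k) (l k)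

/-- The conditional probability, given the labels and the first `k` steps, that node `k` links to
the node prescribed by the history `a`. -/
noncomputable def linkProb {K n : ℕ} (θ : Param K) (a : Hist n) (l : Fin n → Fin K) (k : Fin n) :
    ℝ :=
  if target a k < k then
    θ.gam (l k) (l (target a k)) * (deg a k.val (target a k) : ℝ) / normZ θ a l k
  else θ.gam (l k) (l k) / normZ θ a l k

/-- The probability that the observed history of the first `n` steps of the model with parameters
`θ` is `a`: sum over all label vectors of the product of the label probabilities and of the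
conditional link probabilities. -/
noncomputable def law {K n : ℕ} (θ : Param K) (a : Hist n) : ℝ :=
  ∑ l : Fin n → Fin K, ∏ k : Fin n, θ.pi (l k) * linkProb θ a l k

/-- `N_j^m`: the summed degree of the label-`j` nodes after `m` steps. -/
noncomputable def massN {K n : ℕ} (a : Hist n) (l : Fin n → Fin K) (m : ℕ) (j : Fin K) : ℝ :=
  ∑ v : Fin n, if l v = j then (deg a m v : ℝ) else 0

/-- `D_k(l) = γ_{l_k l_k} + ∑_j γ_{l_k j} N_j^{k}` (here node `k` sees the state after `k`
steps). -/
noncomputable def denD {K n : ℕ} (θ : Param K) (a : Hist n) (l : Fin n → Fin K) (k : Fin n) : ℝ :=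
  θ.gam (l k) (l k) + ∑ j, θ.gam (l k) j * massN a l k.val j

/-- `L_n(l; π, γ)` of the problem file, for the observed history `a`. -/
noncomputable def likL {K n : ℕ} (θ : Param K) (a : Hist n) (l : Fin n → Fin K) : ℝ :=
  (∏ v : Fin n, ((deg a n v - 1).factorial : ℝ)) *
    ∏ k : Fin n, θ.pi (l k) * θ.gam (l k) (l (target a k)) / denD θ a l k

/-- The marginal likelihood `G_n(π, γ)` of the observed history `a`. -/
noncomputable def likG {K n : ℕ} (θ : Param K) (a : Hist n) : ℝ :=
  ∑ l : Fin n → Fin K, likL θ a l

/-- `θ'` is obtained from `θ` by a relabelling and a scaling of `γ`. -/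
def SameOrbit {K : ℕ} (θ θ' : Param K) : Prop :=
  ∃ (σ : Equiv.Perm (Fin K)) (c : ℝ), 0 < c ∧ (∀ j, θ'.pi j = θ.pi (σ j)) ∧
    ∀ i j, θ'.gam i j = c * θ.gam (σ i) (σ j)

/-- Identifiability in the sense of the problem file: all `π_j` are positive, and every parameter
pair inducing the same law of the observed history for all `n` lies in the orbit of `θ`. -/
def Identifiable {K : ℕ} (θ : Param K) : Prop :=
  θ.Valid ∧ (∀ j, 0 < θ.pi j) ∧
    ∀ θ' : Param K, θ'.Valid → (∀ (n : ℕ) (a : Hist n), law θ' a = law θ a) → SameOrbit θ θ'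

/-- `θ` is within `ε` of the orbit of `θ₀` under relabelling and scaling of `γ`. -/
def NearOrbit {K : ℕ} (ε : ℝ) (θ₀ θ : Param K) : Prop :=
  ∃ (σ : Equiv.Perm (Fin K)) (c : ℝ), 0 < c ∧ (∀ j, |θ.pi (σ j) - θ₀.pi j| < ε) ∧
    ∀ i j, |c * θ.gam (σ i) (σ j) - θ₀.gam i j| < ε

/-- The probability, under the parameters `θ`, that the observed history of the first `n` steps
lies in the set `A`. -/
noncomputable def prob {K : ℕ} (θ : Param K) (n : ℕ) (A : Set (Hist n)) : ℝ :=
  ∑ a : Hist n, A.indicator (fun a => law θ a) a

/-- The estimator sequence `T` is (weakly) consistent at `θ₀`: under `θ₀` the estimate converges in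
probability to the orbit of `θ₀` under relabelling and scaling of `γ`. -/
def ConsistentAt {K : ℕ} (T : (n : ℕ) → Hist n → Param K) (θ₀ : Param K) : Prop :=
  ∀ ε : ℝ, 0 < ε →
    Tendsto (fun n => prob θ₀ n {a | NearOrbit ε θ₀ (T n a)}) atTop (𝓝 1)

/-- `θ` is a maximum likelihood estimate for the observed history `a`: a maximiser of `G_n`. -/
def IsMLE {K n : ℕ} (a : Hist n) (θ : Param K) : Prop :=
  θ.Valid ∧ ∀ θ' : Param K, θ'.Valid → likG θ' a ≤ likG θ a

/-- The MLE is (weakly) consistent at `θ₀`: for every `ε > 0`, with probability tending to one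
under `θ₀`, the marginal likelihood has a maximiser and all its maximisers are within `ε` of the
orbit of `θ₀`. -/
def MLEConsistentAt {K : ℕ} (θ₀ : Param K) : Prop :=
  ∀ ε : ℝ, 0 < ε →
    Tendsto (fun n => prob θ₀ n
      {a | (∃ θ : Param K, IsMLE a θ) ∧ ∀ θ : Param K, IsMLE a θ → NearOrbit ε θ₀ θ})
      atTop (𝓝 1)

end Pool.Agent.H973.Hpam
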