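import Mathlib

/-! # From the laws of the first three steps to polynomial equations -/

namespace Pool.Agent.H973.Hpam

/-- Polynomial consequences of the law of the first three steps, in the variables
`S = X + Y`, `P = X Y`, `U = (2 p - 1) (X - Y)`. -/
lemma polys {p X Y c2 d2 l2 g : ℝ} (hX : 0 < 1 + X) (hY : 0 < 1 + Y)
    (hh1 : p * (1 - p) * (X / (X + 3) + Y / (Y + 3)) = c2)
    (hh2 : p * (1 - p) * (4 * (Y - X) / ((X + 3) * (Y + 3))) *
        (p * X / (3 * X + 5) - (1 - p) * Y / (3 * Y + 5)) = d2)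
    (hh4 : p * (1 - p) * (2 / 15 * (X / (X + 3) + Y / (Y + 3)) +
      4 / 15 * (p * Y / (Y + 5) + (1 - p) * X / (X + 5)) +
      4 / 15 * (1 + (X / (X + 3) + Y / (Y + 3))) *
        (p * X / (3 * X + 5) + (1 - p) * Y / (3 * Y + 5))) = l2)
    (hh3 : p * (1 - p) * (p * (2 / 3 * (Y / (Y + 5)) + 2 * X / ((Y + 3) * (4 * X + 5))) +
        (1 - p) * (2 / 3 * (X / (X + 5)) + 2 * Y / ((X + 3) * (4 * Y + 5)))) = g)
    {S P U K D9 D25 D35 D45 N1 N2 num : ℝ} (hS : S = X + Y) (hP : P = X * Y)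
    (hU : U = (2 * p - 1) * (X - Y)) (hK : K = 2 * P + 3 * S) (hD9 : D9 = P + 3 * S + 9)
    (hD25 : D25 = P + 5 * S + 25) (hD35 : D35 = 9 * P + 15 * S + 25)
    (hD45 : D45 = 16 * P + 20 * S + 25) (hN1 : N1 = P + 5 / 2 * (S - U))
    (hN2 : N2 = 3 * P + 5 / 2 * (S + U))
    (hnum : num = 2 * P * (S + U) + 5 / 2 * (S ^ 2 - 2 * P + U * S) + 12 * P +
      15 / 2 * (S + U)) :
    p * (1 - p) * K = c2 * D9 ∧
    d2 * K * D35 + 4 * c2 * (3 * U * P + 5 / 2 * (S ^ 2 - 4 * P + U * S)) = 0 ∧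
    l2 * K * D25 * D35 - c2 * (2 / 15 * K * D25 * D35 + 4 / 15 * N1 * D9 * D35 +
      4 / 15 * (D9 + K) * N2 * D25) = 0 ∧
    (S ^ 2 - 4 * P) * (K - 4 * c2 * D9) - U ^ 2 * K = 0 ∧
    g * K * D25 * D45 - c2 * (2 / 3 * N1 * D9 * D45 + 2 * num * D25) = 0 := by
  have e1 : X + 3 ≠ 0 := by linarith
  have e2 : Y + 3 ≠ 0 := by linarith
  have e3 : 3 * X + 5 ≠ 0 := by linarith
  have e4 : 3 * Y + 5 ≠ 0 := by linarith
  have e5 : X + 5 ≠ 0 := by linarith
  have e6 : Y + 5 ≠ 0 := by linarith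
  have e7 : 4 * X + 5 ≠ 0 := by linarith
  have e8 : 4 * Y + 5 ≠ 0 := by linarith
  have f9 : D9 = (X + 3) * (Y + 3) := by rw [hD9, hP, hS]; ring
  have f25 : D25 = (X + 5) * (Y + 5) := by rw [hD25, hP, hS]; ring
  have f35 : D35 = (3 * X + 5) * (3 * Y + 5) := by rw [hD35, hP, hS]; ring
  have f45 : D45 = (4 * X + 5) * (4 * Y + 5) := by rw [hD45, hP, hS]; ring
  have n9 : D9 ≠ 0 := by rw [f9]; exact mul_ne_zero e1 e2
  have k1 : p * (1 - p) * K = c2 * D9 := by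
    rw [← hh1, f9, hK, hP, hS]
    field_simp
    ring
  have k2 : p * (1 - p) * (4 * (Y - X)) * (p * X * (3 * Y + 5) - (1 - p) * Y * (3 * X + 5)) =
      d2 * D9 * D35 := by
    rw [← hh2, f9, f35]
    clear f9 f25 f35 f45 hN1 hN2 hnum hD9 hD25 hD35 hD45 hh1 hh2 hh3 hh4 k1
    generalize hA : X + 3 = A at *
    generalize hB : Y + 3 = B at *
    generalize hC : 3 * X + 5 = C at *
    generalize hD : 3 * Y + 5 = D at *
    field_simp
  have k4 : p * (1 - p) * (2 / 15 * K * D25 * D35 + 4 / 15 * N1 * D9 * D35 +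
      4 / 15 * (D9 + K) * N2 * D25) = l2 * D9 * D25 * D35 := by
    have m1 : N1 = p * Y * (X + 5) + (1 - p) * X * (Y + 5) := by
      rw [hN1, hP, hS, hU]; ring
    have m2 : N2 = p * X * (3 * Y + 5) + (1 - p) * Y * (3 * X + 5) := by
      rw [hN2, hP, hS, hU]; ring
    have m3 : K = X * (Y + 3) + Y * (X + 3) := by rw [hK, hP, hS]; ring
    rw [← hh4, m1, m2, m3, f9, f25, f35]
    clear f9 f25 f35 f45 hN1 hN2 hnum hD9 hD25 hD35 hD45 hh1 hh2 hh3 hh4 k1 k2
    generalize hA : X + 3 = A at *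
    generalize hB : Y + 3 = B at *
    generalize hC : 3 * X + 5 = C at *
    generalize hD : 3 * Y + 5 = D at *
    generalize hE : X + 5 = E at *
    generalize hF : Y + 5 = F at *
    field_simp
  have k3 : p * (1 - p) * (2 / 3 * N1 * D9 * D45 + 2 * num * D25) = g * D9 * D25 * D45 := by
    have m1 : N1 = p * Y * (X + 5) + (1 - p) * X * (Y + 5) := by
      rw [hN1, hP, hS, hU]; ring
    have m2 : num = p * X * (X + 3) * (4 * Y + 5) + (1 - p) * Y * (Y + 3) * (4 * X + 5) := by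
      rw [hnum, hP, hS, hU]; ring
    rw [← hh3, m1, m2, f9, f25, f45]
    clear f9 f25 f35 f45 hN1 hN2 hnum hD9 hD25 hD35 hD45 hh1 hh2 hh3 hh4 k1 k2 k4
    generalize hA : X + 3 = A at *
    generalize hB : Y + 3 = B at *
    generalize hC : 4 * X + 5 = C at *
    generalize hD : 4 * Y + 5 = D at *
    generalize hE : X + 5 = E at *
    generalize hF : Y + 5 = F at *
    field_simp
    ring
  refine ⟨k1, ?_, ?_, ?_, ?_⟩
  · apply mul_left_cancel₀ n9
    have m : (Y - X) * (p * X * (3 * Y + 5) - (1 - p) * Y * (3 * X + 5)) =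
        - (3 * U * P + 5 / 2 * (S ^ 2 - 4 * P + U * S)) := by
      rw [hU, hP, hS]; ring
    linear_combination (-K) * k2 + (4 * (Y - X) * (p * X * (3 * Y + 5) -
      (1 - p) * Y * (3 * X + 5))) * k1 + (4 * c2 * D9) * m
  · apply mul_left_cancel₀ n9
    linear_combination (-K) * k4 + (2 / 15 * K * D25 * D35 + 4 / 15 * N1 * D9 * D35 +
      4 / 15 * (D9 + K) * N2 * D25) * k1
  · have m : (S ^ 2 - 4 * P) * (1 - 4 * (p * (1 - p))) = U ^ 2 := by
      rw [hU, hP, hS]; ring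
    linear_combination (4 * (S ^ 2 - 4 * P)) * k1 + K * m
  · apply mul_left_cancel₀ n9
    linear_combination (-K) * k3 + (2 / 3 * N1 * D9 * D45 + 2 * num * D25) * k1

end Pool.Agent.H973.Hpam
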