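import Pool.Agent.H973.Hpam.Small
import Pool.Agent.H973.Hpam.Polys
import Pool.Agent.H973.Hpam.Cert1
import Pool.Agent.H973.Hpam.Cert2

/-! # Identifiability of two parameters -/

set_option maxHeartbeats 4000000

namespace Pool.Agent.H973.Hpam

open Finset

/-- first observable -/
noncomputable def E1 (p X Y : ℝ) : ℝ := p * (1 - p) * (X / (X + 3) + Y / (Y + 3))

/-- second observable -/
noncomputable def E2 (p X Y : ℝ) : ℝ := p * (1 - p) * (4 * (Y - X) / ((X + 3) * (Y + 3))) *
        (p * X / (3 * X + 5) - (1 - p) * Y / (3 * Y + 5))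

/-- third observable -/
noncomputable def E4 (p X Y : ℝ) : ℝ := p * (1 - p) * (2 / 15 * (X / (X + 3) + Y / (Y + 3)) +
      4 / 15 * (p * Y / (Y + 5) + (1 - p) * X / (X + 5)) +
      4 / 15 * (1 + (X / (X + 3) + Y / (Y + 3))) *
        (p * X / (3 * X + 5) + (1 - p) * Y / (3 * Y + 5)))

/-- fourth observable -/
noncomputable def E3 (p X Y : ℝ) : ℝ :=
  p * (1 - p) * (p * (2 / 3 * (Y / (Y + 5)) + 2 * X / ((Y + 3) * (4 * X + 5))) +
        (1 - p) * (2 / 3 * (X / (X + 5)) + 2 * Y / ((X + 3) * (4 * Y + 5))))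

lemma E1_val1 : E1 (1/5) (1/200) (1/800) = (12008/36075025) := by unfold E1; norm_num

lemma E2_val1 : E2 (1/5) (1/200) (1/800) = (3456/28968310010045) := by unfold E2; norm_num

lemma E4_val1 : E4 (1/5) (1/200) (1/800) = (2380901308320176/24373552638348788875) := by unfold E4; norm_num

lemma E3_val1 : E3 (1/5) (1/200) (1/800) = (2068576819304/15541974990516975) := by unfold E3; norm_num

theorem num1 {p X Y : ℝ} (hX : 0 < 1 + X) (hY : 0 < 1 + Y)
    (a1 : E1 p X Y = E1 (1/5) (1/200) (1/800)) (a2 : E2 p X Y = E2 (1/5) (1/200) (1/800))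
    (a4 : E4 p X Y = E4 (1/5) (1/200) (1/800)) (a3 : E3 p X Y = E3 (1/5) (1/200) (1/800)) :
    X + Y = 1/160 ∧ X * Y = 1/160000 ∧ (2 * p - 1) * (X - Y) = -9/4000 := by
  rw [E1_val1] at a1
  rw [E2_val1] at a2
  rw [E4_val1] at a4
  rw [E3_val1] at a3
  obtain ⟨S, hS⟩ : ∃ S, S = X + Y := ⟨_, rfl⟩
  obtain ⟨P, hP⟩ : ∃ P, P = X * Y := ⟨_, rfl⟩
  obtain ⟨U, hU⟩ : ∃ U, U = (2 * p - 1) * (X - Y) := ⟨_, rfl⟩
  obtain ⟨q1, q2, q4, q6, q3⟩ := polys hX hY a1 a2 a4 a3 hS hP hU rfl rfl rfl rfl rfl rfl rfl rfl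
  have hD : 0 < P + 3 * S + 9 := by
    have : P + 3 * S + 9 = (X + 3) * (Y + 3) := by rw [hP, hS]; ring
    rw [this]
    exact mul_pos (by linarith) (by linarith)
  have hK : 2 * P + 3 * S ≠ 0 := by
    intro h
    rw [h, mul_zero] at q1
    have : 0 < (12008/36075025) * (P + 3 * S + 9) := by positivity
    linarith
  rw [← hS, ← hP, ← hU]
  apply cert1 hK
  · linear_combination (144841550050225/16) * q2
  · linear_combination (73120657915046366625/16) * q4
  · linear_combination (36075025) * q6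
  · linear_combination (15541974990516975/8) * q3

lemma E1_val2 : E1 (9/25) (1/360) (1/640) = (432288/1297875625) := by unfold E1; norm_num

lemma E2_val2 : E2 (9/25) (1/360) (1/640) = (225792/12492072358759375) := by unfold E2; norm_num

lemma E4_val2 : E4 (9/25) (1/360) (1/640) = (2346124575219065664/24005603213440051878125) := by unfold E4; norm_num

lemma E3_val2 : E3 (9/25) (1/360) (1/640) = (6058788958951584/45504576421877134375) := by unfold E3; norm_num

theorem num2 {p X Y : ℝ} (hX : 0 < 1 + X) (hY : 0 < 1 + Y)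
    (a1 : E1 p X Y = E1 (9/25) (1/360) (1/640)) (a2 : E2 p X Y = E2 (9/25) (1/360) (1/640))
    (a4 : E4 p X Y = E4 (9/25) (1/360) (1/640)) (a3 : E3 p X Y = E3 (9/25) (1/360) (1/640)) :
    X + Y = 5/1152 ∧ X * Y = 1/230400 ∧ (2 * p - 1) * (X - Y) = -49/144000 := by
  rw [E1_val2] at a1
  rw [E2_val2] at a2
  rw [E4_val2] at a4
  rw [E3_val2] at a3
  obtain ⟨S, hS⟩ : ∃ S, S = X + Y := ⟨_, rfl⟩
  obtain ⟨P, hP⟩ : ∃ P, P = X * Y := ⟨_, rfl⟩
  obtain ⟨U, hU⟩ : ∃ U, U = (2 * p - 1) * (X - Y) := ⟨_, rfl⟩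
  obtain ⟨q1, q2, q4, q6, q3⟩ := polys hX hY a1 a2 a4 a3 hS hP hU rfl rfl rfl rfl rfl rfl rfl rfl
  have hD : 0 < P + 3 * S + 9 := by
    have : P + 3 * S + 9 = (X + 3) * (Y + 3) := by rw [hP, hS]; ring
    rw [this]
    exact mul_pos (by linarith) (by linarith)
  have hK : 2 * P + 3 * S ≠ 0 := by
    intro h
    rw [h, mul_zero] at q1
    have : 0 < (432288/1297875625) * (P + 3 * S + 9) := by positivity
    linarith
  rw [← hS, ← hP, ← hU]
  apply cert2 hK
  · linear_combination (12492072358759375/576) * q2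
  · linear_combination (24005603213440051878125/3648) * q4
  · linear_combination (1297875625) * q6
  · linear_combination (45504576421877134375/96) * q3


lemma eq_par2 {θ : Param 2} (hθ : θ.Valid) :
    θ = par2 (θ.pi 0) (θ.gam 0 1) (θ.gam 0 0 / θ.gam 0 1 - 1) (θ.gam 1 1 / θ.gam 0 1 - 1) := by
  have hb := hθ.gam_pos 0 1
  have hs : θ.pi 1 = 1 - θ.pi 0 := by
    have := hθ.pi_sum
    rw [Fin.sum_univ_two] at this
    linarith
  have hsym := hθ.gam_symm 1 0
  obtain ⟨pi, gam⟩ := θ
  simp only at hb hs hsym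
  unfold par2
  congr 1
  · ext j
    fin_cases j
    · rfl
    · simpa using hs
  · ext i j
    fin_cases i <;> fin_cases j
    · simp
      field_simp
    · rfl
    · simpa using hsym
    · simp
      field_simp

theorem identifiable_of_num {p0 b0 X0 Y0 : ℝ} (hp0 : 0 < p0) (hp1 : p0 < 1) (hb0 : 0 < b0)
    (hX0 : 0 < 1 + X0) (hY0 : 0 < 1 + Y0) (hne : X0 ≠ Y0)
    (num : ∀ p X Y : ℝ, 0 < 1 + X → 0 < 1 + Y → E1 p X Y = E1 p0 X0 Y0 →
      E2 p X Y = E2 p0 X0 Y0 → E4 p X Y = E4 p0 X0 Y0 → E3 p X Y = E3 p0 X0 Y0 →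
      X + Y = X0 + Y0 ∧ X * Y = X0 * Y0 ∧ (2 * p - 1) * (X - Y) = (2 * p0 - 1) * (X0 - Y0)) :
    Identifiable (par2 p0 b0 X0 Y0) := by
  refine ⟨⟨?_, ?_, ?_, ?_⟩, ?_, ?_⟩
  · intro j
    fin_cases j
    · exact hp0.le
    · simp [par2]; linarith
  · simp [par2]
  · intro i j
    have h1 := mul_pos hX0 hb0
    have h2 := mul_pos hY0 hb0
    fin_cases i <;> fin_cases j
    · exact h1
    · exact hb0
    · exact hb0
    · exact h2
  · intro i j
    fin_cases i <;> fin_cases j <;> rfl
  · intro j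
    fin_cases j
    · exact hp0
    · simp [par2]; linarith
  · intro θ' hθ' hlaw
    have hpar := eq_par2 hθ'
    have hb := hθ'.gam_pos 0 1
    have ha := hθ'.gam_pos 0 0
    have hc := hθ'.gam_pos 1 1
    set p := θ'.pi 0
    set b := θ'.gam 0 1
    set X := θ'.gam 0 0 / b - 1 with hXdef
    set Y := θ'.gam 1 1 / b - 1 with hYdef
    have hX : 0 < 1 + X := by
      have : 1 + X = θ'.gam 0 0 / b := by rw [hXdef]; ring
      rw [this]; positivity
    have hY : 0 < 1 + Y := by
      have : 1 + Y = θ'.gam 1 1 / b := by rw [hYdef]; ring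
      rw [this]; positivity
    have l1 := hlaw 2 (h2 1)
    have l2 := hlaw 3 (h3 1 0)
    have l3 := hlaw 3 (h3 1 1)
    have l4 := hlaw 3 (h3 1 2)
    have l5 := hlaw 3 (h3 0 2)
    have l6 := hlaw 3 (h3 0 1)
    rw [hpar] at l1 l2 l3 l4 l5 l6
    have e1 : E1 p X Y = E1 p0 X0 Y0 := by
      rw [law_two_loop hb hX hY, law_two_loop hb0 hX0 hY0] at l1
      unfold E1
      linarith
    have e2 : E2 p X Y = E2 p0 X0 Y0 := by
      have m1 := law_three_diff (p := p) hb hX hY
      have m2 := law_three_diff (p := p0) hb0 hX0 hY0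
      rw [l2, l3, m2] at m1
      exact m1.symm
    have e4 : E4 p X Y = E4 p0 X0 Y0 := by
      rw [law_three_loop hb hX hY, law_three_loop hb0 hX0 hY0] at l4
      unfold E4
      linarith
    have e3 : E3 p X Y = E3 p0 X0 Y0 := by
      have m1 := law_three_tree (p := p) hb hX hY
      have m2 := law_three_tree (p := p0) hb0 hX0 hY0
      rw [l5, l6, m2] at m1
      exact m1.symm
    obtain ⟨s1, s2, s3⟩ := num p X Y hX hY e1 e2 e4 e3
    have hroot : (X - X0) * (X - Y0) = 0 := by
      have : Y = X0 + Y0 - X := by linarith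
      rw [this] at s2
      linarith
    have hd : X0 - Y0 ≠ 0 := sub_ne_zero.mpr hne
    rcases mul_eq_zero.mp hroot with h | h
    · have hXX : X = X0 := by linarith
      have hYY : Y = Y0 := by linarith
      rw [hXX, hYY] at s3
      have hpp : p = p0 := by
        have := mul_right_cancel₀ hd s3
        linarith
      refine ⟨Equiv.refl _, b / b0, by positivity, ?_, ?_⟩
      · intro j
        rw [hpar, hpp]
        rfl
      · intro i j
        rw [hpar, hXX, hYY]
        simp only [par2, Equiv.refl_apply]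
        fin_cases i <;> fin_cases j <;> simp <;> field_simp
    · have hXX : X = Y0 := by linarith
      have hYY : Y = X0 := by linarith
      rw [hXX, hYY] at s3
      have hpp : p = 1 - p0 := by
        have h5 : (2 * p - 1) * (X0 - Y0) = (-(2 * p0 - 1)) * (X0 - Y0) := by linarith
        have := mul_right_cancel₀ hd h5
        linarith
      refine ⟨Equiv.swap 0 1, b / b0, by positivity, ?_, ?_⟩
      · intro j
        rw [hpar, hpp]
        fin_cases j <;> simp [par2]
      · intro i j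
        rw [hpar, hXX, hYY]
        simp only [par2]
        fin_cases i <;> fin_cases j <;> simp <;> field_simp

/-- first explicit parameter -/
noncomputable def thA : Param 2 := par2 (1 / 5) (1000 / 1001) (1 / 200) (1 / 800)

/-- second explicit parameter -/
noncomputable def thB : Param 2 := par2 (9 / 25) (1000 / 1001) (1 / 360) (1 / 640)

theorem ident_thA : Identifiable thA := by
  apply identifiable_of_num <;> try norm_num
  intro p X Y hX hY e1 e2 e4 e3
  have := num1 hX hY e1 e2 e4 e3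
  norm_num at this
  exact this

theorem ident_thB : Identifiable thB := by
  apply identifiable_of_num <;> try norm_num
  intro p X Y hX hY e1 e2 e4 e3
  have := num2 hX hY e1 e2 e4 e3
  norm_num at this
  exact this

end Pool.Agent.H973.Hpam
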