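import Pool.Agent.H973.Hpam.Rec

/-! # `G_n` is the marginal likelihood -/

namespace Pool.Agent.H973.Hpam

open Finset

/-- degree factor of step `k` -/
def degF {n : ℕ} (a : Hist n) (k : Fin n) : ℕ :=
  if target a k < k then deg a k.val (target a k) else 1

lemma degF_snoc_castSucc {n : ℕ} (a : Hist n) (v : Fin (n + 1)) (k : Fin n) :
    degF (snocH a v) k.castSucc = degF a k := by
  unfold degF
  simp only [target_snocH_castSucc, Fin.castSucc_lt_castSucc_iff, Fin.val_castSucc]
  rw [deg_snocH_castSucc a v (by omega)]

lemma deg_pos' {n : ℕ} (a : Hist n) {m : ℕ} (v : Fin n) (hv : v.val < m) : 0 < deg a m v := by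
  unfold deg
  apply Finset.sum_pos'
  · intro k _; exact Nat.zero_le _
  · exact ⟨v, Finset.mem_univ _, by simp [hv]⟩

lemma prod_degF (n : ℕ) : ∀ a : Hist n,
    ∏ k, degF a k = ∏ v : Fin n, (deg a n v - 1).factorial := by
  induction n with
  | zero => intro a; simp
  | succ n ih =>
    intro a'
    obtain ⟨a, v, rfl⟩ : ∃ (a : Hist n) (v : Fin (n + 1)), a' = snocH a v := by
      refine ⟨fun k => a' k.castSucc, a' (Fin.last n), ?_⟩
      funext k
      refine Fin.lastCases ?_ (fun i => ?_) k
      · simp
      · simp
    rw [Fin.prod_univ_castSucc, Fin.prod_univ_castSucc]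
    simp only [degF_snoc_castSucc, deg_snocH_succ_castSucc, deg_snocH_succ_last]
    rw [ih a]
    refine Fin.lastCases ?_ (fun w => ?_) v
    · have h1 : ∀ x : Fin n, ¬ (Fin.last n = x.castSucc) :=
        fun x h => Fin.castSucc_ne_last x h.symm
      simp [degF, h1]
    · have h1 : ¬ (w.castSucc = Fin.last n) := Fin.castSucc_ne_last w
      have h2 : w.castSucc < Fin.last n := Fin.castSucc_lt_last w
      have h3 : degF (snocH a w.castSucc) (Fin.last n) = deg a n w := by
        unfold degF
        simp [h2, deg_snocH_castSucc]
      rw [h3]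
      simp only [h1, if_false, Nat.add_zero, Nat.sub_self, Nat.factorial_zero, mul_one,
        Fin.castSucc_inj]
      rw [← Finset.mul_prod_erase Finset.univ _ (Finset.mem_univ w),
        ← Finset.mul_prod_erase Finset.univ
          (fun x => (deg a n x + (if w = x then 1 else 0) - 1).factorial) (Finset.mem_univ w)]
      have h4 : ∏ x ∈ Finset.univ.erase w, (deg a n x + (if w = x then 1 else 0) - 1).factorial =
          ∏ x ∈ Finset.univ.erase w, (deg a n x - 1).factorial := by
        apply Finset.prod_congr rfl
        intro x hx
        have : w ≠ x := fun h => (Finset.ne_of_mem_erase hx) h.symm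
        simp [this]
      rw [h4]
      have h5 : 0 < deg a n w := deg_pos' a w w.isLt
      have h6 : (deg a n w + (if w = w then 1 else 0) - 1).factorial =
          deg a n w * (deg a n w - 1).factorial := by
        simp only [if_true, Nat.add_sub_cancel]
        exact (Nat.mul_factorial_pred h5.ne').symm
      rw [h6]
      ring

lemma deg_zero_of_le {n : ℕ} (a : Hist n) (m : ℕ) (v : Fin n) (hv : m ≤ v.val) :
    deg a m v = 0 := by
  unfold deg
  apply Finset.sum_eq_zero
  intro k _
  split_ifs with h h1 h2 h2
  · exfalso; subst h1; omega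
  · exfalso; subst h1; omega
  · exfalso
    have h3 : (target a k).val ≤ k.val := by
      have := (a k).isLt
      simp only [target]
      omega
    rw [h2] at h3
    omega
  · rfl
  · rfl

lemma denD_eq {K n : ℕ} (θ : Param K) (a : Hist n) (l : Fin n → Fin K) (k : Fin n) :
    denD θ a l k = normZ θ a l k := by
  unfold denD normZ massN
  rw [add_comm]
  congr 1
  simp only [Finset.mul_sum]
  rw [Finset.sum_comm]
  apply Finset.sum_congr rfl
  intro v _
  rw [Finset.sum_eq_single (l v)]
  · rw [if_pos rfl]
    split_ifs with h
    · rfl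
    · have : k.val ≤ v.val := by
        rw [Fin.lt_def] at h
        omega
      rw [deg_zero_of_le a k.val v this]
      simp
  · intro j _ hj
    rw [if_neg (fun h => hj h.symm), mul_zero]
  · intro h
    exact absurd (Finset.mem_univ _) h

lemma linkProb_eq {K n : ℕ} (θ : Param K) (a : Hist n) (l : Fin n → Fin K) (k : Fin n) :
    linkProb θ a l k =
      (degF a k : ℝ) * (θ.gam (l k) (l (target a k)) / denD θ a l k) := by
  rw [denD_eq]
  unfold linkProb degF
  split_ifs with h
  · ring
  · have : target a k = k := by
      have h3 : (target a k).val ≤ k.val := by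
        have := (a k).isLt
        simp only [target]
        omega
      apply Fin.ext
      rw [Fin.lt_def] at h
      omega
    rw [this]
    push_cast
    ring

/-- The marginal likelihood `G_n` of the problem file is the probability of the observed
history. -/
theorem likG_eq_law {K n : ℕ} (θ : Param K) (a : Hist n) : likG θ a = law θ a := by
  unfold likG law likL
  apply Finset.sum_congr rfl
  intro l _
  have h := prod_degF n a
  have h2 : (∏ v : Fin n, ((deg a n v - 1).factorial : ℝ)) = ∏ k, (degF a k : ℝ) := by
    rw [← Nat.cast_prod, ← Nat.cast_prod, h]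
  rw [h2, ← Finset.prod_mul_distrib]
  apply Finset.prod_congr rfl
  intro k _
  rw [linkProb_eq]
  ring

/-- The law is a probability law on histories. -/
theorem law_sum_eq_one {K : ℕ} {θ : Param K} (hθ : θ.Valid) (n : ℕ) :
    ∑ a : Hist n, law θ a = 1 := by
  induction n with
  | zero => simp [law]
  | succ n ih =>
    rw [sum_hist_succ]
    rw [← ih]
    apply Finset.sum_congr rfl
    intro a _
    simp only [law_eq, sum_lab_succ, wt_snoc]
    rw [Finset.sum_comm]
    apply Finset.sum_congr rfl
    intro l _
    rw [Finset.sum_comm]
    have hZ : ∀ j, stepZ θ a l j ≠ 0 := by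
      intro j
      have : 0 < stepZ θ a l j := by
        unfold stepZ
        apply add_pos_of_nonneg_of_pos _ (hθ.gam_pos j j)
        apply Finset.sum_nonneg
        intro v _
        exact mul_nonneg (hθ.gam_pos _ _).le (Nat.cast_nonneg _)
      exact this.ne'
    have h1 : ∀ j, ∑ v : Fin (n + 1), stepP θ a l j v = 1 := by
      intro j
      rw [Fin.sum_univ_castSucc]
      simp only [stepP_castSucc, stepP_last]
      rw [← Finset.sum_div, ← add_div]
      exact div_self (hZ j)
    have h2 : ∀ j, ∑ v : Fin (n + 1), wt θ a l * (θ.pi j * stepP θ a l j v) =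
        wt θ a l * θ.pi j := by
      intro j
      rw [← Finset.mul_sum, ← Finset.mul_sum, h1 j, mul_one]
    simp only [h2]
    rw [← Finset.mul_sum, hθ.pi_sum, mul_one]

end Pool.Agent.H973.Hpam
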