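import Pool.Agent.H973.Hpam.SecondMoment

/-! # No estimator is consistent at two parameters of the balanced family -/

namespace Pool.Agent.H973.Hpam

open Finset Filter Topology

/-- reference probability of a set -/
noncomputable def refprob (δ : ℝ) (n : ℕ) (A : Set (Hist n)) : ℝ :=
  ∑ a : Hist n, A.indicator (fun a => refw δ a) a

lemma prob_sq_le {K : ℕ} {p φ : Fin K → ℝ} {δ : ℝ} (hb : Bal p φ δ) (n : ℕ)
    (A : Set (Hist n)) : prob (balParam p φ δ) n A ^ 2 ≤ 1.1 * refprob δ n A := by
  have h : prob (balParam p φ δ) n A ^ 2 ≤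
      (∑ a : Hist n, law (balParam p φ δ) a ^ 2 / refw δ a) * refprob δ n A := by
    unfold prob refprob
    apply Finset.sum_sq_le_sum_mul_sum_of_sq_eq_mul
    · intro a _
      exact div_nonneg (sq_nonneg _) (refw_nonneg hb.d0 a)
    · intro a _
      exact Set.indicator_nonneg (fun a _ => refw_nonneg hb.d0 a) a
    · intro a _
      have hr := (refw_pos hb.d0 a).ne'
      by_cases ha : a ∈ A
      · simp only [Set.indicator_of_mem ha]
        field_simp
      · simp only [Set.indicator_of_notMem ha]
        ring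
  refine h.trans ?_
  apply mul_le_mul_of_nonneg_right (second_moment hb n)
  unfold refprob
  apply Finset.sum_nonneg
  intro a _
  exact Set.indicator_nonneg (fun a _ => refw_nonneg hb.d0 a) a

lemma refprob_disj {δ : ℝ} (hδ : 0 < δ) (n : ℕ) {A B : Set (Hist n)} (h : Disjoint A B) :
    refprob δ n A + refprob δ n B ≤ 1 := by
  rw [← refw_sum hδ n]
  unfold refprob
  rw [← Finset.sum_add_distrib]
  apply Finset.sum_le_sum
  intro a _
  have hr := refw_nonneg hδ a
  by_cases ha : a ∈ A
  · have hb : a ∉ B := fun hb => (Set.disjoint_left.mp h) ha hb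
    simp [Set.indicator_of_mem ha, Set.indicator_of_notMem hb]
  · by_cases hb : a ∈ B
    · simp [Set.indicator_of_notMem ha, Set.indicator_of_mem hb]
    · simp [Set.indicator_of_notMem ha, Set.indicator_of_notMem hb, hr]

/-- Two sequences of disjoint events cannot have probabilities tending to one under two members of
the balanced family with the same `δ`. -/
theorem not_both {K K' : ℕ} {p φ : Fin K → ℝ} {p' φ' : Fin K' → ℝ} {δ : ℝ} (hb : Bal p φ δ)
    (hb' : Bal p' φ' δ) (A B : (n : ℕ) → Set (Hist n)) (hd : ∀ n, Disjoint (A n) (B n))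
    (h1 : Tendsto (fun n => prob (balParam p φ δ) n (A n)) atTop (𝓝 1))
    (h2 : Tendsto (fun n => prob (balParam p' φ' δ) n (B n)) atTop (𝓝 1)) : False := by
  have e1 := h1.eventually (lt_mem_nhds (show (0.9 : ℝ) < 1 by norm_num))
  have e2 := h2.eventually (lt_mem_nhds (show (0.9 : ℝ) < 1 by norm_num))
  obtain ⟨n, hn1, hn2⟩ := (e1.and e2).exists
  have q1 := prob_sq_le hb n (A n)
  have q2 := prob_sq_le hb' n (B n)
  have q3 := refprob_disj hb.d0 n (hd n)
  have r1 : (0.81 : ℝ) ≤ prob (balParam p φ δ) n (A n) ^ 2 := by nlinarith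
  have r2 : (0.81 : ℝ) ≤ prob (balParam p' φ' δ) n (B n) ^ 2 := by nlinarith
  linarith

end Pool.Agent.H973.Hpam
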