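import Mathlib

/-! # One-replica estimates -/

namespace Pool.Agent.H973.Hpam

open Finset

/-- Data of the balanced family: label proportions, the function `φ` and the number `δ`. -/
structure Bal {J : Type*} [Fintype J] (p φ : J → ℝ) (δ : ℝ) : Prop where
  p0 : ∀ j, 0 ≤ p j
  p1 : ∑ j, p j = 1
  m1 : ∑ j, p j * φ j = 0
  m2 : ∑ j, p j * φ j ^ 2 = 1
  bd : ∀ j, |φ j| ≤ 2
  d0 : 0 < δ
  d1 : δ ≤ 1 / 1000

lemma avg_le {J : Type*} [Fintype J] {p x : J → ℝ} {c : ℝ} (p0 : ∀ j, 0 ≤ p j)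
    (p1 : ∑ j, p j = 1) (hx : ∀ j, |x j| ≤ c) : |∑ j, p j * x j| ≤ c := by
  calc |∑ j, p j * x j| ≤ ∑ j, |p j * x j| := Finset.abs_sum_le_sum_abs _ _
    _ = ∑ j, p j * |x j| := by
        apply Finset.sum_congr rfl
        intro j _
        rw [abs_mul, abs_of_nonneg (p0 j)]
    _ ≤ ∑ j, p j * c := Finset.sum_le_sum fun j _ => mul_le_mul_of_nonneg_left (hx j) (p0 j)
    _ = c := by rw [← Finset.sum_mul, p1, one_mul]

section

variable {J : Type*} [Fintype J] (p φ : J → ℝ) (δ N M : ℝ)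

/-- deviation of the normalising constant -/
def eps (j : J) : ℝ := δ * (φ j ^ 2 - 1) + δ * φ j * M

/-- `u_j = N / D_j` -/
noncomputable def uu (j : J) : ℝ := N / (N + eps φ δ M j)

/-- `η` -/
noncomputable def eta : ℝ := δ * (3 + 2 * |M|) / N

/-- `α` -/
noncomputable def alp : ℝ := ∑ j, p j * (uu φ δ N M j - 1)

/-- `β` -/
noncomputable def bet : ℝ := ∑ j, p j * (φ j * uu φ δ N M j)

/-- `R` -/
noncomputable def rrr : ℝ := ∑ j, p j * (δ * (φ j ^ 2 - 1) * uu φ δ N M j)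

/-- `A(f)` -/
noncomputable def AA (f : ℝ) : ℝ := ∑ j, p j * ((1 + δ * φ j * f) * uu φ δ N M j)

/-- `B(f)` -/
noncomputable def BB (f : ℝ) : ℝ := ∑ j, p j * ((1 + δ * φ j * f) * φ j * uu φ δ N M j)

/-- `A₀` -/
noncomputable def AA0 : ℝ := ∑ j, p j * ((1 + δ * φ j ^ 2) / (1 + δ) * uu φ δ N M j)

/-- `B₀` -/
noncomputable def BB0 : ℝ := ∑ j, p j * ((1 + δ * φ j ^ 2) / (1 + δ) * φ j * uu φ δ N M j)

variable {p φ δ N M}

lemma eta_nonneg (hb : Bal p φ δ) (hN : 1 ≤ N) : 0 ≤ eta δ N M := by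
  have := hb.d0
  unfold eta
  positivity

lemma eta_le (hb : Bal p φ δ) (hN : 1 ≤ N) (hM : |M| ≤ 2 * N) : eta δ N M ≤ 7 * δ := by
  have := hb.d0
  unfold eta
  rw [div_le_iff₀ (by linarith)]
  nlinarith

lemma phi_sq_le (hb : Bal p φ δ) (j : J) : φ j ^ 2 ≤ 4 := by
  have := abs_le.mp (hb.bd j)
  nlinarith

lemma eps_abs_le (hb : Bal p φ δ) (hN : 1 ≤ N) (j : J) : |eps φ δ M j| ≤ N * eta δ N M := by
  have hd := hb.d0
  have h1 : N * eta δ N M = δ * (3 + 2 * |M|) := by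
    unfold eta
    field_simp
  rw [h1]
  unfold eps
  have h2 : |φ j ^ 2 - 1| ≤ 3 := by
    have := phi_sq_le hb j
    rw [abs_le]; constructor <;> nlinarith [sq_nonneg (φ j)]
  calc |δ * (φ j ^ 2 - 1) + δ * φ j * M| ≤ |δ * (φ j ^ 2 - 1)| + |δ * φ j * M| := abs_add_le _ _
    _ = δ * |φ j ^ 2 - 1| + δ * (|φ j| * |M|) := by
        rw [abs_mul, abs_mul, abs_mul, abs_of_pos hd]; ring
    _ ≤ δ * 3 + δ * (2 * |M|) := by
        gcongr
        exact hb.bd j
    _ = _ := by ring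

lemma den_ge (hb : Bal p φ δ) (hN : 1 ≤ N) (hM : |M| ≤ 2 * N) (j : J) :
    N * 0.99 ≤ N + eps φ δ M j := by
  have h1 := abs_le.mp (eps_abs_le (M := M) hb hN j)
  have h2 := eta_le hb hN hM
  have h3 := hb.d1
  nlinarith

lemma uu_mul (hb : Bal p φ δ) (hN : 1 ≤ N) (hM : |M| ≤ 2 * N) (j : J) :
    eps φ δ M j * uu φ δ N M j = - N * (uu φ δ N M j - 1) := by
  have h1 := den_ge hb hN hM j
  have h2 : N + eps φ δ M j ≠ 0 := by
    have : 0 < N * 0.99 := by linarith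
    linarith
  unfold uu
  field_simp
  ring

lemma uu_sub_le (hb : Bal p φ δ) (hN : 1 ≤ N) (hM : |M| ≤ 2 * N) (j : J) :
    |uu φ δ N M j - 1| ≤ 2 * eta δ N M := by
  have h1 := den_ge hb hN hM j
  have h0 : 0 < N + eps φ δ M j := by
    have : 0 < N * 0.99 := by linarith
    linarith
  have h2 : uu φ δ N M j - 1 = - (eps φ δ M j / (N + eps φ δ M j)) := by
    unfold uu
    field_simp
    ring
  rw [h2, abs_neg, abs_div, abs_of_pos h0, div_le_iff₀ h0]
  have h3 := eps_abs_le (M := M) hb hN j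
  have h4 := eta_nonneg (M := M) hb hN
  calc |eps φ δ M j| ≤ N * eta δ N M := h3
    _ ≤ 2 * eta δ N M * (N * 0.99) := by nlinarith
    _ ≤ 2 * eta δ N M * (N + eps φ δ M j) := by gcongr

lemma uu_bounds (hb : Bal p φ δ) (hN : 1 ≤ N) (hM : |M| ≤ 2 * N) (j : J) :
    0.98 ≤ uu φ δ N M j ∧ uu φ δ N M j ≤ 1.02 := by
  have h1 := abs_le.mp (uu_sub_le hb hN hM j)
  have h2 := eta_le hb hN hM
  have h3 := hb.d1
  constructor <;> linarith

lemma eps_mean (hb : Bal p φ δ) : ∑ j, p j * eps φ δ M j = 0 := by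
  have h : ∀ j, p j * eps φ δ M j = δ * (p j * φ j ^ 2) - δ * p j + δ * M * (p j * φ j) := by
    intro j; unfold eps; ring
  rw [Finset.sum_congr rfl fun j _ => h j, Finset.sum_add_distrib, Finset.sum_sub_distrib,
    ← Finset.mul_sum, ← Finset.mul_sum, ← Finset.mul_sum, hb.m1, hb.m2, hb.p1]
  ring

lemma alp_eq (hb : Bal p φ δ) (hN : 1 ≤ N) (hM : |M| ≤ 2 * N) :
    ∑ j, p j * (eps φ δ M j * uu φ δ N M j) = - N * alp p φ δ N M := by
  unfold alp
  rw [Finset.mul_sum]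
  apply Finset.sum_congr rfl
  intro j _
  rw [uu_mul hb hN hM]
  ring

lemma alp_abs_le (hb : Bal p φ δ) (hN : 1 ≤ N) (hM : |M| ≤ 2 * N) :
    |alp p φ δ N M| ≤ 2 * eta δ N M ^ 2 := by
  have h1 := alp_eq hb hN hM
  have h2 : ∑ j, p j * (eps φ δ M j * uu φ δ N M j) =
      ∑ j, p j * (eps φ δ M j * (uu φ δ N M j - 1)) := by
    have : ∀ j, p j * (eps φ δ M j * uu φ δ N M j) =
        p j * (eps φ δ M j * (uu φ δ N M j - 1)) + p j * eps φ δ M j := by
      intro j; ring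
    rw [Finset.sum_congr rfl fun j _ => this j, Finset.sum_add_distrib, eps_mean hb, add_zero]
  have h3 : |∑ j, p j * (eps φ δ M j * (uu φ δ N M j - 1))| ≤
      N * eta δ N M * (2 * eta δ N M) := by
    apply avg_le hb.p0 hb.p1
    intro j
    rw [abs_mul]
    have h4 := eta_nonneg (M := M) hb hN
    exact mul_le_mul (eps_abs_le hb hN j) (uu_sub_le hb hN hM j) (abs_nonneg _) (by positivity)
  rw [← h2, h1, abs_mul, abs_neg, abs_of_pos (show 0 < N by linarith)] at h3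
  have h5 : N * |alp p φ δ N M| ≤ N * (2 * eta δ N M ^ 2) := by
    calc _ ≤ _ := h3
      _ = _ := by ring
  exact le_of_mul_le_mul_left h5 (by linarith)

lemma bet_eq (hb : Bal p φ δ) :
    bet p φ δ N M = ∑ j, p j * (φ j * (uu φ δ N M j - 1)) := by
  unfold bet
  have : ∀ j, p j * (φ j * uu φ δ N M j) = p j * (φ j * (uu φ δ N M j - 1)) + p j * φ j := by
    intro j; ring
  rw [Finset.sum_congr rfl fun j _ => this j, Finset.sum_add_distrib, hb.m1, add_zero]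

lemma bet_abs_le (hb : Bal p φ δ) (hN : 1 ≤ N) (hM : |M| ≤ 2 * N) :
    |bet p φ δ N M| ≤ 4 * eta δ N M := by
  rw [bet_eq hb]
  apply avg_le hb.p0 hb.p1
  intro j
  rw [abs_mul]
  calc |φ j| * |uu φ δ N M j - 1| ≤ 2 * (2 * eta δ N M) :=
        mul_le_mul (hb.bd j) (uu_sub_le hb hN hM j) (abs_nonneg _) (by norm_num)
    _ = _ := by ring

lemma rrr_abs_le (hb : Bal p φ δ) (hN : 1 ≤ N) (hM : |M| ≤ 2 * N) :
    |rrr p φ δ N M| ≤ 6 * δ * eta δ N M := by
  have hd := hb.d0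
  have h : rrr p φ δ N M = ∑ j, p j * (δ * (φ j ^ 2 - 1) * (uu φ δ N M j - 1)) := by
    unfold rrr
    have : ∀ j, p j * (δ * (φ j ^ 2 - 1) * uu φ δ N M j) =
        p j * (δ * (φ j ^ 2 - 1) * (uu φ δ N M j - 1)) + (δ * (p j * φ j ^ 2) - δ * p j) := by
      intro j; ring
    rw [Finset.sum_congr rfl fun j _ => this j, Finset.sum_add_distrib,
      Finset.sum_sub_distrib, ← Finset.mul_sum, ← Finset.mul_sum, hb.m2, hb.p1]
    ring
  rw [h]
  apply avg_le hb.p0 hb.p1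
  intro j
  have h2 : |φ j ^ 2 - 1| ≤ 3 := by
    have := phi_sq_le hb j
    rw [abs_le]; constructor <;> nlinarith [sq_nonneg (φ j)]
  rw [abs_mul, abs_mul, abs_of_pos hd]
  calc δ * |φ j ^ 2 - 1| * |uu φ δ N M j - 1| ≤ δ * 3 * (2 * eta δ N M) := by
        apply mul_le_mul _ (uu_sub_le hb hN hM j) (abs_nonneg _) (by positivity)
        gcongr
    _ = _ := by ring

lemma AA_eq (hb : Bal p φ δ) (f : ℝ) :
    AA p φ δ N M f = 1 + alp p φ δ N M + δ * f * bet p φ δ N M := by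
  unfold AA alp bet
  rw [Finset.mul_sum]
  have : (1 : ℝ) = ∑ j, p j := hb.p1.symm
  rw [show (1 : ℝ) + ∑ j, p j * (uu φ δ N M j - 1) = ∑ j, p j + ∑ j, p j * (uu φ δ N M j - 1) by
    rw [hb.p1]]
  rw [← Finset.sum_add_distrib, ← Finset.sum_add_distrib]
  apply Finset.sum_congr rfl
  intro j _
  ring

lemma AA0_eq (hb : Bal p φ δ) :
    (1 + δ) * AA0 p φ δ N M = (1 + δ) * (1 + alp p φ δ N M) + rrr p φ δ N M := by
  have hd := hb.d0
  unfold AA0 alp rrr
  rw [show (1 : ℝ) + ∑ j, p j * (uu φ δ N M j - 1) = ∑ j, p j + ∑ j, p j * (uu φ δ N M j - 1) by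
    rw [hb.p1]]
  rw [← Finset.sum_add_distrib, Finset.mul_sum, Finset.mul_sum, ← Finset.sum_add_distrib]
  apply Finset.sum_congr rfl
  intro j _
  field_simp
  ring

/-- the relation `δ β M = - N α - R` -/
lemma rel_eq (hb : Bal p φ δ) (hN : 1 ≤ N) (hM : |M| ≤ 2 * N) :
    δ * bet p φ δ N M * M = - N * alp p φ δ N M - rrr p φ δ N M := by
  rw [← alp_eq hb hN hM]
  unfold bet rrr
  rw [← Finset.sum_sub_distrib, Finset.mul_sum, Finset.sum_mul]
  apply Finset.sum_congr rfl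
  intro j _
  unfold eps
  ring

lemma AA_sub_le (hb : Bal p φ δ) (hN : 1 ≤ N) (hM : |M| ≤ 2 * N) {f : ℝ} (hf : |f| ≤ 2) :
    |AA p φ δ N M f - 1| ≤ 22 * δ * eta δ N M := by
  have hd := hb.d0
  have he := eta_nonneg (M := M) hb hN
  have he7 := eta_le hb hN hM
  rw [AA_eq hb]
  have h1 := alp_abs_le hb hN hM
  have h2 := bet_abs_le hb hN hM
  calc |1 + alp p φ δ N M + δ * f * bet p φ δ N M - 1|
      = |alp p φ δ N M + δ * f * bet p φ δ N M| := by congr 1; ring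
    _ ≤ |alp p φ δ N M| + |δ * f * bet p φ δ N M| := abs_add_le _ _
    _ = |alp p φ δ N M| + δ * |f| * |bet p φ δ N M| := by
        rw [abs_mul, abs_mul, abs_of_pos hd]
    _ ≤ 2 * eta δ N M ^ 2 + δ * 2 * (4 * eta δ N M) := by gcongr
    _ ≤ 22 * δ * eta δ N M := by nlinarith

lemma BB_sub_le (hb : Bal p φ δ) (hN : 1 ≤ N) (hM : |M| ≤ 2 * N) {f : ℝ} (hf : |f| ≤ 2) :
    |BB p φ δ N M f - δ * f| ≤ 5 * eta δ N M := by
  have hd := hb.d0
  have hd1 := hb.d1
  have he := eta_nonneg (M := M) hb hN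
  have h : BB p φ δ N M f - δ * f =
      ∑ j, p j * ((φ j + δ * f * φ j ^ 2) * (uu φ δ N M j - 1)) := by
    unfold BB
    have : ∀ j, p j * ((1 + δ * φ j * f) * φ j * uu φ δ N M j) =
        p j * ((φ j + δ * f * φ j ^ 2) * (uu φ δ N M j - 1)) +
          (p j * φ j + δ * f * (p j * φ j ^ 2)) := by
      intro j; ring
    rw [Finset.sum_congr rfl fun j _ => this j, Finset.sum_add_distrib, Finset.sum_add_distrib,
      ← Finset.mul_sum, hb.m1, hb.m2]
    ring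
  rw [h]
  apply avg_le hb.p0 hb.p1
  intro j
  rw [abs_mul]
  have h2 : |φ j + δ * f * φ j ^ 2| ≤ 2.5 := by
    calc |φ j + δ * f * φ j ^ 2| ≤ |φ j| + |δ * f * φ j ^ 2| := abs_add_le _ _
      _ = |φ j| + δ * |f| * φ j ^ 2 := by
          rw [abs_mul, abs_mul, abs_of_pos hd, abs_of_nonneg (sq_nonneg (φ j))]
      _ ≤ 2 + δ * 2 * 4 := by
          gcongr
          · exact hb.bd j
          · exact phi_sq_le hb j
      _ ≤ 2.5 := by linarith
  calc |φ j + δ * f * φ j ^ 2| * |uu φ δ N M j - 1| ≤ 2.5 * (2 * eta δ N M) :=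
        mul_le_mul h2 (uu_sub_le hb hN hM j) (abs_nonneg _) (by norm_num)
    _ = _ := by ring

lemma kap_sum (hb : Bal p φ δ) : ∑ j, p j * ((1 + δ * φ j ^ 2) / (1 + δ)) = 1 := by
  have hd := hb.d0
  have : ∀ j, p j * ((1 + δ * φ j ^ 2) / (1 + δ)) =
      (p j + δ * (p j * φ j ^ 2)) / (1 + δ) := by
    intro j; field_simp
  rw [Finset.sum_congr rfl fun j _ => this j, ← Finset.sum_div, Finset.sum_add_distrib,
    ← Finset.mul_sum, hb.m2, hb.p1]
  field_simp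

lemma AA0_abs_le (hb : Bal p φ δ) (hN : 1 ≤ N) (hM : |M| ≤ 2 * N) :
    |AA0 p φ δ N M| ≤ 1.02 := by
  have hd := hb.d0
  have h : AA0 p φ δ N M = ∑ j, (p j * ((1 + δ * φ j ^ 2) / (1 + δ))) * uu φ δ N M j := by
    unfold AA0
    apply Finset.sum_congr rfl
    intro j _; ring
  rw [h]
  apply avg_le
  · intro j
    have := hb.p0 j
    positivity
  · exact kap_sum hb
  · intro j
    have := uu_bounds hb hN hM j
    rw [abs_le]
    constructor <;> linarith

lemma BB0_abs_le (hb : Bal p φ δ) (hN : 1 ≤ N) (hM : |M| ≤ 2 * N) :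
    |BB0 p φ δ N M| ≤ 2.04 := by
  have hd := hb.d0
  have h : BB0 p φ δ N M =
      ∑ j, (p j * ((1 + δ * φ j ^ 2) / (1 + δ))) * (φ j * uu φ δ N M j) := by
    unfold BB0
    apply Finset.sum_congr rfl
    intro j _; ring
  rw [h]
  apply avg_le
  · intro j
    have := hb.p0 j
    positivity
  · exact kap_sum hb
  · intro j
    have h1 := uu_bounds hb hN hM j
    rw [abs_mul]
    calc |φ j| * |uu φ δ N M j| ≤ 2 * 1.02 := by
          apply mul_le_mul (hb.bd j) _ (abs_nonneg _) (by norm_num)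
          rw [abs_le]
          constructor <;> linarith
      _ = 2.04 := by norm_num

end

end Pool.Agent.H973.Hpam
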