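import Pool.Agent.H973.Hpam.Defs

/-! # Recursive structure: appending one node -/

namespace Pool.Agent.H973.Hpam

open Finset

/-- append one step to a history -/
def snocH {n : ℕ} (a : Hist n) (v : Fin (n + 1)) : Hist (n + 1) :=
  Fin.snoc (α := fun k : Fin (n + 1) => Fin (k.val + 1)) a v

/-- append one label -/
def snocL {K n : ℕ} (l : Fin n → Fin K) (j : Fin K) : Fin (n + 1) → Fin K :=
  Fin.snoc (α := fun _ : Fin (n + 1) => Fin K) l j

@[simp] lemma snocL_castSucc {K n : ℕ} (l : Fin n → Fin K) (j : Fin K) (k : Fin n) :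
    snocL l j k.castSucc = l k := by
  simp [snocL]

@[simp] lemma snocL_last {K n : ℕ} (l : Fin n → Fin K) (j : Fin K) :
    snocL l j (Fin.last n) = j := by
  simp [snocL]

@[simp] lemma snocH_castSucc {n : ℕ} (a : Hist n) (v : Fin (n + 1)) (k : Fin n) :
    snocH a v k.castSucc = a k := by
  simp [snocH]

@[simp] lemma snocH_last {n : ℕ} (a : Hist n) (v : Fin (n + 1)) :
    snocH a v (Fin.last n) = v := by
  simp [snocH]

@[simp] lemma target_snocH_castSucc {n : ℕ} (a : Hist n) (v : Fin (n + 1)) (k : Fin n) :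
    target (snocH a v) k.castSucc = (target a k).castSucc := by
  ext
  simp [target]

@[simp] lemma target_snocH_last {n : ℕ} (a : Hist n) (v : Fin (n + 1)) :
    target (snocH a v) (Fin.last n) = v := by
  ext
  simp [target]

lemma deg_snocH_castSucc {n : ℕ} (a : Hist n) (v : Fin (n + 1)) {m : ℕ} (hm : m ≤ n)
    (w : Fin n) : deg (snocH a v) m w.castSucc = deg a m w := by
  unfold deg
  rw [Fin.sum_univ_castSucc]
  have : ¬ (n < m) := by omega
  simp [this]

lemma deg_snocH_last_of_le {n : ℕ} (a : Hist n) (v : Fin (n + 1)) {m : ℕ} (hm : m ≤ n) :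
    deg (snocH a v) m (Fin.last n) = 0 := by
  unfold deg
  rw [Fin.sum_univ_castSucc]
  have h1 : ¬ (n < m) := by omega
  have h2 : ∀ k : Fin n, ¬ (k.castSucc = Fin.last n) := fun k => Fin.castSucc_ne_last k
  simp [h1, h2]

lemma deg_snocH_succ_castSucc {n : ℕ} (a : Hist n) (v : Fin (n + 1)) (w : Fin n) :
    deg (snocH a v) (n + 1) w.castSucc = deg a n w + if v = w.castSucc then 1 else 0 := by
  unfold deg
  rw [Fin.sum_univ_castSucc]
  have h2 : ¬ (Fin.last n = w.castSucc) := fun h => Fin.castSucc_ne_last w h.symm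
  have h3 : ∀ k : Fin n, (k : ℕ) < n + 1 := fun k => by omega
  simp [h2, h3]

lemma deg_snocH_succ_last {n : ℕ} (a : Hist n) (v : Fin (n + 1)) :
    deg (snocH a v) (n + 1) (Fin.last n) = 1 + if v = Fin.last n then 1 else 0 := by
  unfold deg
  rw [Fin.sum_univ_castSucc]
  have h2 : ∀ k : Fin n, ¬ (k.castSucc = Fin.last n) := fun k => Fin.castSucc_ne_last k
  simp [h2]

lemma deg_sum {n : ℕ} (a : Hist n) : ∑ v : Fin n, deg a n v = 2 * n := by
  unfold deg
  rw [Finset.sum_comm]
  have : ∀ k : Fin n, (∑ v : Fin n, if k.val < n then (if k = v then 1 else 0) +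
      (if target a k = v then 1 else 0) else 0) = 2 := by
    intro k
    simp [Finset.sum_add_distrib]
  rw [Finset.sum_congr rfl (fun k _ => this k)]
  simp [mul_comm]

/-- sums over histories of length `n + 1` -/
lemma sum_hist_succ {n : ℕ} (F : Hist (n + 1) → ℝ) :
    ∑ a' : Hist (n + 1), F a' = ∑ a : Hist n, ∑ v : Fin (n + 1), F (snocH a v) := by
  have h := (Fin.snocEquiv (fun k : Fin (n + 1) => Fin (k.val + 1))).sum_comp F
  rw [← h]
  rw [Fintype.sum_prod_type]
  rw [Finset.sum_comm]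
  rfl

lemma sum_lab_succ {K n : ℕ} (F : (Fin (n + 1) → Fin K) → ℝ) :
    ∑ l' : Fin (n + 1) → Fin K, F l' = ∑ l : Fin n → Fin K, ∑ j : Fin K, F (snocL l j) := by
  have h := (Fin.snocEquiv (fun _ : Fin (n + 1) => Fin K)).sum_comp F
  rw [← h]
  rw [Fintype.sum_prod_type]
  rw [Finset.sum_comm]
  rfl

/-- normalising constant of the step in which node `n` (with label `j`) arrives -/
noncomputable def stepZ {K n : ℕ} (θ : Param K) (a : Hist n) (l : Fin n → Fin K) (j : Fin K) : ℝ :=
  (∑ v : Fin n, θ.gam j (l v) * (deg a n v : ℝ)) + θ.gam j j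

/-- link probability of the new node -/
noncomputable def stepP {K n : ℕ} (θ : Param K) (a : Hist n) (l : Fin n → Fin K) (j : Fin K)
    (v : Fin (n + 1)) : ℝ :=
  linkProb θ (snocH a v) (snocL l j) (Fin.last n)

lemma normZ_snoc_castSucc {K n : ℕ} (θ : Param K) (a : Hist n) (l : Fin n → Fin K)
    (v : Fin (n + 1)) (j : Fin K) (k : Fin n) :
    normZ θ (snocH a v) (snocL l j) k.castSucc = normZ θ a l k := by
  unfold normZ
  rw [Fin.sum_univ_castSucc]
  have h1 : ¬ (Fin.last n < k.castSucc) := by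
    simp [Fin.lt_def]
  simp only [h1, if_false, add_zero, snocL_castSucc, Fin.castSucc_lt_castSucc_iff, Fin.val_castSucc]
  congr 1
  apply Finset.sum_congr rfl
  intro w _
  rw [deg_snocH_castSucc a v (by omega)]

lemma normZ_snoc_last {K n : ℕ} (θ : Param K) (a : Hist n) (l : Fin n → Fin K)
    (v : Fin (n + 1)) (j : Fin K) :
    normZ θ (snocH a v) (snocL l j) (Fin.last n) = stepZ θ a l j := by
  unfold normZ stepZ
  rw [Fin.sum_univ_castSucc]
  have h1 : ∀ k : Fin n, k.castSucc < Fin.last n := fun k => Fin.castSucc_lt_last k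
  simp [h1, deg_snocH_castSucc]

lemma linkProb_snoc_castSucc {K n : ℕ} (θ : Param K) (a : Hist n) (l : Fin n → Fin K)
    (v : Fin (n + 1)) (j : Fin K) (k : Fin n) :
    linkProb θ (snocH a v) (snocL l j) k.castSucc = linkProb θ a l k := by
  unfold linkProb
  rw [normZ_snoc_castSucc]
  simp only [target_snocH_castSucc, snocL_castSucc, Fin.castSucc_lt_castSucc_iff, Fin.val_castSucc]
  rw [deg_snocH_castSucc a v (by omega)]

lemma stepP_castSucc {K n : ℕ} (θ : Param K) (a : Hist n) (l : Fin n → Fin K) (j : Fin K)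
    (w : Fin n) : stepP θ a l j w.castSucc = θ.gam j (l w) * (deg a n w : ℝ) / stepZ θ a l j := by
  unfold stepP linkProb
  rw [normZ_snoc_last]
  have h1 : w.castSucc < Fin.last n := Fin.castSucc_lt_last w
  simp [h1, deg_snocH_castSucc]

lemma stepP_last {K n : ℕ} (θ : Param K) (a : Hist n) (l : Fin n → Fin K) (j : Fin K) :
    stepP θ a l j (Fin.last n) = θ.gam j j / stepZ θ a l j := by
  unfold stepP linkProb
  rw [normZ_snoc_last]
  simp

/-- weight of a history together with a label vector -/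
noncomputable def wt {K n : ℕ} (θ : Param K) (a : Hist n) (l : Fin n → Fin K) : ℝ :=
  ∏ k : Fin n, θ.pi (l k) * linkProb θ a l k

lemma law_eq {K n : ℕ} (θ : Param K) (a : Hist n) : law θ a = ∑ l, wt θ a l := rfl

lemma wt_snoc {K n : ℕ} (θ : Param K) (a : Hist n) (l : Fin n → Fin K) (v : Fin (n + 1))
    (j : Fin K) : wt θ (snocH a v) (snocL l j) = wt θ a l * (θ.pi j * stepP θ a l j v) := by
  unfold wt
  rw [Fin.prod_univ_castSucc]
  simp [linkProb_snoc_castSucc, stepP]

end Pool.Agent.H973.Hpam
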