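import Mathlib

/-! # The analytic one-step inequality for the potential `exp (lam * w^3 / N^2)` -/

namespace Pool.Agent.H973.Hpam

open Finset

/-- `w = √(X₁² + X₂² + X₃² + 800 N)` -/
noncomputable def ww (X1 X2 X3 N : ℝ) : ℝ := Real.sqrt (X1 ^ 2 + X2 ^ 2 + X3 ^ 2 + 800 * N)

/-- the exponent `w³ / N²` -/
noncomputable def WW (X1 X2 X3 N : ℝ) : ℝ := (ww X1 X2 X3 N) ^ 3 / N ^ 2

lemma cube_upper {w v : ℝ} (hw : 0 < w) (hv : 0 ≤ v) :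
    v ^ 3 ≤ w ^ 3 + (3 / 2) * w * (v ^ 2 - w ^ 2) + (v ^ 2 - w ^ 2) ^ 2 / (2 * w) := by
  have h : 0 ≤ (v - w) ^ 2 * ((v + w) ^ 2 - 2 * w * (v + w / 2)) := by
    apply mul_nonneg (sq_nonneg _)
    nlinarith [sq_nonneg v]
  have h2 : (v ^ 2 - w ^ 2) ^ 2 / (2 * w) = ((v - w) ^ 2 * (v + w) ^ 2) / (2 * w) := by
    congr 1
    ring
  rw [h2]
  have h3 : v ^ 3 - (w ^ 3 + (3 / 2) * w * (v ^ 2 - w ^ 2)) = (v - w) ^ 2 * (v + w / 2) := by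
    ring
  have h4 : (v - w) ^ 2 * (v + w / 2) ≤ ((v - w) ^ 2 * (v + w) ^ 2) / (2 * w) := by
    rw [le_div_iff₀ (by positivity)]
    nlinarith
  linarith

lemma cube_lower {w v : ℝ} (hw : 0 < w) (hv : 0 ≤ v) :
    w ^ 3 + (3 / 2) * w * (v ^ 2 - w ^ 2) ≤ v ^ 3 := by
  have h3 : v ^ 3 - (w ^ 3 + (3 / 2) * w * (v ^ 2 - w ^ 2)) = (v - w) ^ 2 * (v + w / 2) := by
    ring
  have : 0 ≤ (v - w) ^ 2 * (v + w / 2) := by positivity
  linarith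

/-- Cauchy–Schwarz in the form needed. -/
lemma cs3 {X1 X2 X3 x1 x2 x3 w : ℝ} (hw : 0 ≤ w) (hX : X1 ^ 2 + X2 ^ 2 + X3 ^ 2 ≤ w ^ 2)
    (h1 : |x1| ≤ 4) (h2 : |x2| ≤ 4) (h3 : |x3| ≤ 8) :
    |X1 * x1 + X2 * x2 + X3 * x3| ≤ 9.8 * w := by
  have a1 : x1 ^ 2 ≤ 16 := by nlinarith [abs_le.mp h1]
  have a2 : x2 ^ 2 ≤ 16 := by nlinarith [abs_le.mp h2]
  have a3 : x3 ^ 2 ≤ 64 := by nlinarith [abs_le.mp h3]
  apply abs_le_of_sq_le_sq _ (by positivity)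
  have hcs : (X1 * x1 + X2 * x2 + X3 * x3) ^ 2 ≤
      (X1 ^ 2 + X2 ^ 2 + X3 ^ 2) * (x1 ^ 2 + x2 ^ 2 + x3 ^ 2) := by
    nlinarith [sq_nonneg (X1 * x2 - X2 * x1), sq_nonneg (X1 * x3 - X3 * x1),
      sq_nonneg (X2 * x3 - X3 * x2)]
  have h5 : (X1 ^ 2 + X2 ^ 2 + X3 ^ 2) * (x1 ^ 2 + x2 ^ 2 + x3 ^ 2) ≤ w ^ 2 * 96 := by
    apply mul_le_mul hX (by linarith) (by positivity) (by positivity)
  nlinarith [sq_nonneg w]

section

variable {X1 X2 X3 N : ℝ}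

lemma ww_sq (hN : 4000 ≤ N) :
    (ww X1 X2 X3 N) ^ 2 = X1 ^ 2 + X2 ^ 2 + X3 ^ 2 + 800 * N := by
  unfold ww
  rw [Real.sq_sqrt]
  positivity

lemma ww_ge (hN : 4000 ≤ N) : 1788 ≤ ww X1 X2 X3 N := by
  unfold ww
  apply Real.le_sqrt_of_sq_le
  nlinarith [sq_nonneg X1, sq_nonneg X2, sq_nonneg X3]

lemma ww_le (hN : 4000 ≤ N) (h1 : |X1| ≤ 2 * N) (h2 : |X2| ≤ 2 * N) (h3 : |X3| ≤ 4 * N) :
    ww X1 X2 X3 N ≤ 5 * N := by
  unfold ww
  apply Real.sqrt_le_iff.mpr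
  refine ⟨by linarith, ?_⟩
  have a1 : X1 ^ 2 ≤ (2 * N) ^ 2 := sq_le_sq' (by linarith [(abs_le.mp h1).1]) (abs_le.mp h1).2
  have a2 : X2 ^ 2 ≤ (2 * N) ^ 2 := sq_le_sq' (by linarith [(abs_le.mp h2).1]) (abs_le.mp h2).2
  have a3 : X3 ^ 2 ≤ (4 * N) ^ 2 := sq_le_sq' (by linarith [(abs_le.mp h3).1]) (abs_le.mp h3).2
  nlinarith

/-- pointwise bounds for the increment -/
lemma incr_bounds (hN : 4000 ≤ N) (h1 : |X1| ≤ 2 * N) (h2 : |X2| ≤ 2 * N) (h3 : |X3| ≤ 4 * N)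
    {x1 x2 x3 : ℝ} (g1 : |x1| ≤ 4) (g2 : |x2| ≤ 4) (g3 : |x3| ≤ 8) :
    let w := ww X1 X2 X3 N
    let Δ := 2 * (X1 * x1 + X2 * x2 + X3 * x3) + (x1 ^ 2 + x2 ^ 2 + x3 ^ 2) + 1600
    WW (X1 + x1) (X2 + x2) (X3 + x3) (N + 2) - WW X1 X2 X3 N ≤
        (w ^ 3 + (3 / 2) * w * Δ + 221 * w) / (N + 2) ^ 2 - w ^ 3 / N ^ 2 ∧
      |WW (X1 + x1) (X2 + x2) (X3 + x3) (N + 2) - WW X1 X2 X3 N| ≤ 52 * w ^ 2 / N ^ 2 := by
  intro w Δ
  have hw : 1788 ≤ w := ww_ge hN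
  have hw0 : 0 < w := by linarith
  have hw5 : w ≤ 5 * N := ww_le hN h1 h2 h3
  have hwsq : w ^ 2 = X1 ^ 2 + X2 ^ 2 + X3 ^ 2 + 800 * N := ww_sq hN
  set v := ww (X1 + x1) (X2 + x2) (X3 + x3) (N + 2)
  have hv0 : 0 ≤ v := Real.sqrt_nonneg _
  have hvsq : v ^ 2 = (X1 + x1) ^ 2 + (X2 + x2) ^ 2 + (X3 + x3) ^ 2 + 800 * (N + 2) :=
    ww_sq (by linarith)
  have hΔ : v ^ 2 - w ^ 2 = Δ := by
    rw [hvsq, hwsq]; simp only [Δ]; ring
  have hcs : |X1 * x1 + X2 * x2 + X3 * x3| ≤ 9.8 * w := by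
    apply cs3 hw0.le _ g1 g2 g3
    rw [hwsq]; linarith
  have a1 : x1 ^ 2 ≤ 16 := by nlinarith only [abs_le.mp g1]
  have a2 : x2 ^ 2 ≤ 16 := by nlinarith only [abs_le.mp g2]
  have a3 : x3 ^ 2 ≤ 64 := by nlinarith only [abs_le.mp g3]
  have hΔb : |Δ| ≤ 21 * w := by
    rw [abs_le]
    have := abs_le.mp hcs
    constructor
    · simp only [Δ]; linarith [sq_nonneg x1, sq_nonneg x2, sq_nonneg x3]
    · simp only [Δ]; linarith
  have hΔsq : Δ ^ 2 ≤ 441 * w ^ 2 := by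
    have := abs_le.mp hΔb
    have h := sq_le_sq' this.1 this.2
    calc Δ ^ 2 ≤ (21 * w) ^ 2 := h
      _ = 441 * w ^ 2 := by ring
  have hup := cube_upper hw0 hv0
  have hlow := cube_lower hw0 hv0
  rw [hΔ] at hup hlow
  have hup2 : v ^ 3 ≤ w ^ 3 + (3 / 2) * w * Δ + 221 * w := by
    have : Δ ^ 2 / (2 * w) ≤ 221 * w := by
      rw [div_le_iff₀ (by positivity)]
      have : 0 ≤ w ^ 2 := sq_nonneg w
      linarith
    linarith
  have hWv : WW (X1 + x1) (X2 + x2) (X3 + x3) (N + 2) = v ^ 3 / (N + 2) ^ 2 := rfl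
  have hWw : WW X1 X2 X3 N = w ^ 3 / N ^ 2 := rfl
  rw [hWv, hWw]
  refine ⟨?_, ?_⟩
  · gcongr
  · have hdiff : |v ^ 3 - w ^ 3| ≤ 32 * w ^ 2 := by
      have hb := abs_le.mp hΔb
      have hb1 : w * Δ ≤ w * (21 * w) := mul_le_mul_of_nonneg_left hb.2 hw0.le
      have hb2 : w * (-(21 * w)) ≤ w * Δ := mul_le_mul_of_nonneg_left hb.1 hw0.le
      have hb3 : 1788 * w ≤ w * w := mul_le_mul_of_nonneg_right hw hw0.le
      rw [abs_le]
      constructor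
      · nlinarith only [hb1, hb2, hb3, hlow, hup2]
      · nlinarith only [hb1, hb2, hb3, hlow, hup2]
    have hN0 : 0 < N := by linarith
    have e1 : v ^ 3 / (N + 2) ^ 2 - w ^ 3 / N ^ 2 =
        (v ^ 3 - w ^ 3) / (N + 2) ^ 2 - w ^ 3 * (4 * N + 4) / (N ^ 2 * (N + 2) ^ 2) := by
      field_simp
      ring
    rw [e1]
    have e2 : |(v ^ 3 - w ^ 3) / (N + 2) ^ 2| ≤ 32 * w ^ 2 / N ^ 2 := by
      rw [abs_div, abs_of_pos (show (0 : ℝ) < (N + 2) ^ 2 by positivity)]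
      exact div_le_div₀ (by positivity) hdiff (by positivity)
        (pow_le_pow_left₀ hN0.le (by linarith) 2)
    have e3 : |w ^ 3 * (4 * N + 4) / (N ^ 2 * (N + 2) ^ 2)| ≤ 20 * w ^ 2 / N ^ 2 := by
      rw [abs_of_nonneg (by positivity)]
      rw [div_le_div_iff₀ (by positivity) (by positivity)]
      have h8 := mul_le_mul_of_nonneg_right hw5 (show (0 : ℝ) ≤ 4 * N + 4 by linarith)
      have : w * (4 * N + 4) ≤ 20 * (N + 2) ^ 2 := by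
        have h9 : 5 * N * (4 * N + 4) = 20 * (N + 2) ^ 2 - (60 * N + 80) := by ring
        rw [h9] at h8
        linarith
      have h6 : w ^ 3 * (4 * N + 4) * N ^ 2 = (w ^ 2 * N ^ 2) * (w * (4 * N + 4)) := by ring
      have h7 : 20 * w ^ 2 * (N ^ 2 * (N + 2) ^ 2) = (w ^ 2 * N ^ 2) * (20 * (N + 2) ^ 2) := by
        ring
      rw [h6, h7]
      exact mul_le_mul_of_nonneg_left this (by positivity)
    calc |(v ^ 3 - w ^ 3) / (N + 2) ^ 2 - w ^ 3 * (4 * N + 4) / (N ^ 2 * (N + 2) ^ 2)|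
        ≤ |(v ^ 3 - w ^ 3) / (N + 2) ^ 2| + |w ^ 3 * (4 * N + 4) / (N ^ 2 * (N + 2) ^ 2)| :=
          abs_sub _ _
      _ ≤ 32 * w ^ 2 / N ^ 2 + 20 * w ^ 2 / N ^ 2 := add_le_add e2 e3
      _ = 52 * w ^ 2 / N ^ 2 := by ring

end

/-- The exponent parameter. -/
noncomputable def lamc : ℝ := 1 / 10 ^ 7

/-- scalar inequality behind `step_exp` -/
lemma scalar_final {w N δ a Q : ℝ} (hN : 4000 ≤ N) (hδ0 : 0 ≤ δ) (hδ : δ ≤ 1 / 1000)
    (hw : 1788 ≤ w) (hw5 : w ≤ 5 * N) (hw2 : 800 * N ≤ w ^ 2)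
    (ha : |a - 1| ≤ 1800 * δ ^ 4 * w ^ 3 / N ^ 3)
    (hQ : Q ≤ 2 * (w ^ 2 - 800 * N) / N + (120 * δ * w ^ 2 + 120 * w) / N) :
    (1 + lamc * ((w ^ 3 + 221 * w) / (N + 2) ^ 2 - w ^ 3 / N ^ 2) +
      13520 * lamc ^ 2 * w ^ 3 / N ^ 3) * a +
      lamc * (3 / 2) * w / (N + 2) ^ 2 * (Q + 1696 * a) ≤ 1 := by
  have hN0 : 0 < N := by linarith
  have hw0 : 0 < w := by linarith
  set A := w ^ 3 / N ^ 3 with hA
  have hA0 : 0 < A := by positivity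
  have hA125 : A ≤ 125 := by
    rw [hA, div_le_iff₀ (by positivity)]
    calc w ^ 3 ≤ (5 * N) ^ 3 := pow_le_pow_left₀ hw0.le hw5 3
      _ = 125 * N ^ 3 := by ring
  have hδ4 : δ ^ 4 ≤ 1 / 10 ^ 12 := by
    calc δ ^ 4 ≤ (1 / 1000) ^ 4 := pow_le_pow_left₀ hδ0 hδ 4
      _ = 1 / 10 ^ 12 := by norm_num
  have haA : |a - 1| ≤ 1.8 / 10 ^ 9 * A := by
    calc |a - 1| ≤ 1800 * δ ^ 4 * w ^ 3 / N ^ 3 := ha
      _ = 1800 * δ ^ 4 * A := by rw [hA]; ring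
      _ ≤ 1800 * (1 / 10 ^ 12) * A := by gcongr
      _ = 1.8 / 10 ^ 9 * A := by ring
  have ha1 := (abs_le.mp haA).1
  have ha2 := (abs_le.mp haA).2
  -- `q = w / (N+2)^2`
  set q := w / (N + 2) ^ 2 with hq
  have hq0 : 0 < q := by positivity
  have hqA : q ≤ A / 800 := by
    rw [hq, hA, div_div, div_le_div_iff₀ (by positivity) (by positivity)]
    have h1 : N ^ 2 ≤ (N + 2) ^ 2 := pow_le_pow_left₀ hN0.le (by linarith) 2
    calc w * (N ^ 3 * 800) = w * (800 * N) * N ^ 2 := by ring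
      _ ≤ w * (w ^ 2) * (N + 2) ^ 2 := by gcongr
      _ = w ^ 3 * (N + 2) ^ 2 := by ring
  -- first piece
  have e1 : (w ^ 3 + 221 * w) / (N + 2) ^ 2 - w ^ 3 / N ^ 2 ≤ -3.99 * A + 221 * q := by
    have : w ^ 3 / (N + 2) ^ 2 - w ^ 3 / N ^ 2 ≤ -3.99 * A := by
      have h1 : w ^ 3 / (N + 2) ^ 2 - w ^ 3 / N ^ 2 =
          - (A * (N * (4 * N + 4) / (N + 2) ^ 2)) := by
        rw [hA]
        field_simp
        ring
      have h2 : 3.99 ≤ N * (4 * N + 4) / (N + 2) ^ 2 := by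
        rw [le_div_iff₀ (by positivity)]
        nlinarith only [hN]
      rw [h1]
      nlinarith only [h2, hA0]
    have h3 : (w ^ 3 + 221 * w) / (N + 2) ^ 2 = w ^ 3 / (N + 2) ^ 2 + 221 * q := by
      rw [hq]; ring
    rw [h3]
    linarith
  -- second piece
  have e2 : q * Q ≤ 2.12 * A + 0.0672 * A - 1600 * q := by
    have hc : 120 * δ * w ^ 2 ≤ 0.12 * w ^ 2 := by nlinarith only [hδ, sq_nonneg w]
    have h1 : Q ≤ 2.12 * (w ^ 2 / N) + 120 * (w / N) - 1600 := by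
      have h2 : (120 * δ * w ^ 2 + 120 * w) / N ≤ (0.12 * w ^ 2 + 120 * w) / N := by gcongr
      have h3 : 2 * (w ^ 2 - 800 * N) / N = 2 * (w ^ 2 / N) - 1600 := by
        field_simp
        ring
      have h4 : (0.12 * w ^ 2 + 120 * w) / N = 0.12 * (w ^ 2 / N) + 120 * (w / N) := by ring
      linarith
    have h5 : q * (w ^ 2 / N) ≤ A := by
      rw [hq, hA, div_mul_div_comm, div_le_div_iff₀ (by positivity) (by positivity)]
      have h1 : N ^ 2 ≤ (N + 2) ^ 2 := pow_le_pow_left₀ hN0.le (by linarith) 2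
      calc w * w ^ 2 * N ^ 3 = w ^ 3 * N * N ^ 2 := by ring
        _ ≤ w ^ 3 * N * (N + 2) ^ 2 := by gcongr
        _ = w ^ 3 * ((N + 2) ^ 2 * N) := by ring
    have h6 : q * (w / N) ≤ A / 1788 := by
      have : w / N ≤ (w ^ 2 / N) / 1788 := by
        rw [le_div_iff₀ (by norm_num), div_mul_eq_mul_div]
        gcongr
        nlinarith only [hw]
      calc q * (w / N) ≤ q * ((w ^ 2 / N) / 1788) := by gcongr
        _ = (q * (w ^ 2 / N)) / 1788 := by ring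
        _ ≤ A / 1788 := by gcongr
    calc q * Q ≤ q * (2.12 * (w ^ 2 / N) + 120 * (w / N) - 1600) := by gcongr
      _ = 2.12 * (q * (w ^ 2 / N)) + 120 * (q * (w / N)) - 1600 * q := by ring
      _ ≤ 2.12 * A + 120 * (A / 1788) - 1600 * q := by gcongr
      _ ≤ 2.12 * A + 0.0672 * A - 1600 * q := by linarith
  have hlam : lamc = 1 / 10 ^ 7 := rfl
  have e3 : lamc * (3 / 2) * w / (N + 2) ^ 2 * (Q + 1696 * a) =
      lamc * ((3 / 2) * (q * Q + 1696 * (q * a))) := by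
    rw [hq]; ring
  have e4 : 13520 * lamc ^ 2 * w ^ 3 / N ^ 3 = 13520 * lamc ^ 2 * A := by rw [hA]; ring
  rw [e3, e4]
  have ha0 : 0 < a := by
    have : 1.8 / 10 ^ 9 * A ≤ 1.8 / 10 ^ 9 * 125 := by gcongr
    linarith
  have ha3 : a ≤ 1 + 1 / 10 ^ 6 := by
    have : 1.8 / 10 ^ 9 * A ≤ 1.8 / 10 ^ 9 * 125 := by gcongr
    linarith
  have ha4 : 1 - 1 / 10 ^ 6 ≤ a := by
    have : 1.8 / 10 ^ 9 * A ≤ 1.8 / 10 ^ 9 * 125 := by gcongr
    linarith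
  have m1 : ((w ^ 3 + 221 * w) / (N + 2) ^ 2 - w ^ 3 / N ^ 2) * a ≤ (-3.99 * A + 221 * q) * a :=
    mul_le_mul_of_nonneg_right e1 ha0.le
  have m2 : (1 - 1 / 10 ^ 6) * A ≤ A * a := by nlinarith only [ha4, hA0]
  have m3 : A * a ≤ (1 + 1 / 10 ^ 6) * A := by nlinarith only [ha3, hA0]
  have m4 : q * a ≤ (1 + 1 / 10 ^ 6) * q := by nlinarith only [ha3, hq0]
  have m5 : (1 - 1 / 10 ^ 6) * q ≤ q * a := by nlinarith only [ha4, hq0]
  rw [hlam]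
  nlinarith only [m1, m2, m3, m4, m5, e2, ha2, hqA, hA0, hq0]

/-- The abstract one-step inequality. -/
theorem step_exp {Ω : Type*} [Fintype Ω] (om x1 x2 x3 : Ω → ℝ) (hom : ∀ o, 0 ≤ om o)
    (g1 : ∀ o, |x1 o| ≤ 4) (g2 : ∀ o, |x2 o| ≤ 4) (g3 : ∀ o, |x3 o| ≤ 8)
    {X1 X2 X3 N δ : ℝ} (hN : 4000 ≤ N) (hδ0 : 0 ≤ δ) (hδ : δ ≤ 1 / 1000)
    (h1 : |X1| ≤ 2 * N) (h2 : |X2| ≤ 2 * N) (h3 : |X3| ≤ 4 * N)
    (ha : |(∑ o, om o) - 1| ≤ 1800 * δ ^ 4 * (ww X1 X2 X3 N) ^ 3 / N ^ 3)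
    (t1 : |(∑ o, om o * x1 o) - X1 / N| ≤ (20 * δ * (|X1| + |X2| + |X3|) + 34) / N)
    (t2 : |(∑ o, om o * x2 o) - X2 / N| ≤ (20 * δ * (|X1| + |X2| + |X3|) + 34) / N)
    (t3 : |(∑ o, om o * x3 o) - X3 / N| ≤ (20 * δ * (|X1| + |X2| + |X3|) + 34) / N) :
    ∑ o, om o * Real.exp (lamc * WW (X1 + x1 o) (X2 + x2 o) (X3 + x3 o) (N + 2)) ≤
      Real.exp (lamc * WW X1 X2 X3 N) := by
  have hN0 : 0 < N := by linarith
  set w := ww X1 X2 X3 N with hwdef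
  have hw : 1788 ≤ w := ww_ge hN
  have hw0 : 0 < w := by linarith
  have hw5 : w ≤ 5 * N := ww_le hN h1 h2 h3
  have hwsq : w ^ 2 = X1 ^ 2 + X2 ^ 2 + X3 ^ 2 + 800 * N := ww_sq hN
  have hlam : lamc = 1 / 10 ^ 7 := rfl
  have hlam0 : 0 < lamc := by rw [hlam]; norm_num
  set a := ∑ o, om o with hadef
  set T1 := ∑ o, om o * x1 o with hT1
  set T2 := ∑ o, om o * x2 o with hT2
  set T3 := ∑ o, om o * x3 o with hT3
  -- pointwise bound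
  have hpt : ∀ o, Real.exp (lamc * WW (X1 + x1 o) (X2 + x2 o) (X3 + x3 o) (N + 2)) ≤
      Real.exp (lamc * WW X1 X2 X3 N) *
        ((1 + lamc * ((w ^ 3 + 221 * w) / (N + 2) ^ 2 - w ^ 3 / N ^ 2) +
          13520 * lamc ^ 2 * w ^ 3 / N ^ 3) +
        lamc * (3 / 2) * w / (N + 2) ^ 2 *
          (2 * (X1 * x1 o + X2 * x2 o + X3 * x3 o) + 1696)) := by
    intro o
    obtain ⟨b1, b2⟩ := incr_bounds hN h1 h2 h3 (g1 o) (g2 o) (g3 o)
    rw [← hwdef] at b1 b2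
    set Dd := WW (X1 + x1 o) (X2 + x2 o) (X3 + x3 o) (N + 2) - WW X1 X2 X3 N with hDd
    have hexp : Real.exp (lamc * WW (X1 + x1 o) (X2 + x2 o) (X3 + x3 o) (N + 2)) =
        Real.exp (lamc * WW X1 X2 X3 N) * Real.exp (lamc * Dd) := by
      rw [← Real.exp_add]
      congr 1
      rw [hDd]; ring
    rw [hexp]
    apply mul_le_mul_of_nonneg_left _ (Real.exp_pos _).le
    have hwN : w ^ 2 / N ^ 2 ≤ 25 := by
      rw [div_le_iff₀ (by positivity)]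
      calc w ^ 2 ≤ (5 * N) ^ 2 := pow_le_pow_left₀ hw0.le hw5 2
        _ = 25 * N ^ 2 := by ring
    have hb3 : |lamc * Dd| ≤ lamc * (52 * w ^ 2 / N ^ 2) := by
      rw [abs_mul, abs_of_pos hlam0]
      exact mul_le_mul_of_nonneg_left b2 hlam0.le
    have hb4 : |lamc * Dd| ≤ 1 := by
      have : 52 * w ^ 2 / N ^ 2 = 52 * (w ^ 2 / N ^ 2) := by ring
      rw [this] at hb3
      rw [hlam] at hb3 ⊢
      linarith
    have hb5 : (lamc * Dd) ^ 2 ≤ 13520 * lamc ^ 2 * w ^ 3 / N ^ 3 := by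
      have h5 : (lamc * Dd) ^ 2 ≤ (lamc * (52 * w ^ 2 / N ^ 2)) ^ 2 := by
        rw [← sq_abs (lamc * Dd)]
        exact pow_le_pow_left₀ (abs_nonneg _) hb3 2
      have h6 : (lamc * (52 * w ^ 2 / N ^ 2)) ^ 2 = 2704 * lamc ^ 2 * (w ^ 3 / N ^ 3) * (w / N) := by
        field_simp
        ring
      have h7 : w / N ≤ 5 := by
        rw [div_le_iff₀ hN0]; linarith
      calc (lamc * Dd) ^ 2 ≤ 2704 * lamc ^ 2 * (w ^ 3 / N ^ 3) * (w / N) := by rw [← h6]; exact h5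
        _ ≤ 2704 * lamc ^ 2 * (w ^ 3 / N ^ 3) * 5 := by gcongr
        _ = 13520 * lamc ^ 2 * w ^ 3 / N ^ 3 := by ring
    have hb6 := (abs_le.mp (Real.abs_exp_sub_one_sub_id_le hb4)).2
    have a1 : x1 o ^ 2 ≤ 16 := by nlinarith only [abs_le.mp (g1 o)]
    have a2 : x2 o ^ 2 ≤ 16 := by nlinarith only [abs_le.mp (g2 o)]
    have a3 : x3 o ^ 2 ≤ 64 := by nlinarith only [abs_le.mp (g3 o)]
    have hb7 : lamc * Dd ≤ lamc * ((w ^ 3 + 221 * w) / (N + 2) ^ 2 - w ^ 3 / N ^ 2) +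
        lamc * (3 / 2) * w / (N + 2) ^ 2 *
          (2 * (X1 * x1 o + X2 * x2 o + X3 * x3 o) + 1696) := by
      have hΔ : 2 * (X1 * x1 o + X2 * x2 o + X3 * x3 o) + (x1 o ^ 2 + x2 o ^ 2 + x3 o ^ 2) + 1600
          ≤ 2 * (X1 * x1 o + X2 * x2 o + X3 * x3 o) + 1696 := by linarith
      calc lamc * Dd ≤ lamc * ((w ^ 3 + (3 / 2) * w * (2 * (X1 * x1 o + X2 * x2 o + X3 * x3 o) +
              (x1 o ^ 2 + x2 o ^ 2 + x3 o ^ 2) + 1600) + 221 * w) / (N + 2) ^ 2 - w ^ 3 / N ^ 2) :=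
            mul_le_mul_of_nonneg_left b1 hlam0.le
        _ ≤ lamc * ((w ^ 3 + (3 / 2) * w * (2 * (X1 * x1 o + X2 * x2 o + X3 * x3 o) + 1696)
              + 221 * w) / (N + 2) ^ 2 - w ^ 3 / N ^ 2) := by gcongr
        _ = _ := by ring
    linarith
  have hsum : ∑ o, om o * Real.exp (lamc * WW (X1 + x1 o) (X2 + x2 o) (X3 + x3 o) (N + 2)) ≤
      Real.exp (lamc * WW X1 X2 X3 N) *
        ((1 + lamc * ((w ^ 3 + 221 * w) / (N + 2) ^ 2 - w ^ 3 / N ^ 2) +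
          13520 * lamc ^ 2 * w ^ 3 / N ^ 3) * a +
        lamc * (3 / 2) * w / (N + 2) ^ 2 *
          (2 * (X1 * T1 + X2 * T2 + X3 * T3) + 1696 * a)) := by
    calc ∑ o, om o * Real.exp (lamc * WW (X1 + x1 o) (X2 + x2 o) (X3 + x3 o) (N + 2))
        ≤ ∑ o, om o * (Real.exp (lamc * WW X1 X2 X3 N) *
        ((1 + lamc * ((w ^ 3 + 221 * w) / (N + 2) ^ 2 - w ^ 3 / N ^ 2) +
          13520 * lamc ^ 2 * w ^ 3 / N ^ 3) +
        lamc * (3 / 2) * w / (N + 2) ^ 2 *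
          (2 * (X1 * x1 o + X2 * x2 o + X3 * x3 o) + 1696))) :=
          Finset.sum_le_sum fun o _ => mul_le_mul_of_nonneg_left (hpt o) (hom o)
      _ = _ := by
        rw [hadef, hT1, hT2, hT3]
        simp only [Finset.mul_sum, ← Finset.sum_add_distrib]
        apply Finset.sum_congr rfl
        intro o _
        ring
  refine hsum.trans ?_
  have hS : 2 * (X1 * T1 + X2 * T2 + X3 * T3) ≤
      2 * (w ^ 2 - 800 * N) / N + (120 * δ * w ^ 2 + 120 * w) / N := by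
    set S := |X1| + |X2| + |X3| with hSdef
    have hS0 : 0 ≤ S := by positivity
    set E := (20 * δ * S + 34) / N with hE
    have hE0 : 0 ≤ E := by positivity
    have key : ∀ X T : ℝ, |T - X / N| ≤ E → X * T ≤ X ^ 2 / N + |X| * E := by
      intro X T h
      have h1 : X * T = X ^ 2 / N + X * (T - X / N) := by
        field_simp
        ring
      rw [h1]
      have h2 : X * (T - X / N) ≤ |X| * E := by
        calc X * (T - X / N) ≤ |X * (T - X / N)| := le_abs_self _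
          _ = |X| * |T - X / N| := abs_mul _ _
          _ ≤ |X| * E := by gcongr
      linarith
    have k1 := key X1 T1 t1
    have k2 := key X2 T2 t2
    have k3 := key X3 T3 t3
    have hS2 : S ^ 2 ≤ 3 * w ^ 2 := by
      have q1 : |X1| ^ 2 = X1 ^ 2 := sq_abs X1
      have q2 : |X2| ^ 2 = X2 ^ 2 := sq_abs X2
      have q3 : |X3| ^ 2 = X3 ^ 2 := sq_abs X3
      rw [hwsq, hSdef]
      nlinarith only [q1, q2, q3, hN0, sq_nonneg (|X1| - |X2|), sq_nonneg (|X1| - |X3|),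
        sq_nonneg (|X2| - |X3|)]
    have hSw : S ≤ 1.76 * w := by
      apply le_of_sq_le_sq _ (by positivity)
      nlinarith only [hS2, sq_nonneg w]
    have hSE : S * E ≤ (60 * δ * w ^ 2 + 60 * w) / N := by
      rw [hE, mul_div_assoc']
      apply div_le_div_of_nonneg_right _ hN0.le
      have : δ * S ^ 2 ≤ δ * (3 * w ^ 2) := by gcongr
      nlinarith only [this, hSw, hw0]
    have hsumX : X1 ^ 2 / N + X2 ^ 2 / N + X3 ^ 2 / N = (w ^ 2 - 800 * N) / N := by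
      rw [hwsq]; ring
    have hfin : (|X1| * E + |X2| * E + |X3| * E) = S * E := by rw [hSdef]; ring
    have e1 : 2 * (w ^ 2 - 800 * N) / N = 2 * ((w ^ 2 - 800 * N) / N) := by ring
    have e2 : (120 * δ * w ^ 2 + 120 * w) / N = 2 * ((60 * δ * w ^ 2 + 60 * w) / N) := by ring
    rw [e1, e2]
    linarith
  have hfin := scalar_final (a := a) hN hδ0 hδ hw hw5 (by
    rw [hwsq]; nlinarith only [sq_nonneg X1, sq_nonneg X2, sq_nonneg X3]) ha hS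
  calc Real.exp (lamc * WW X1 X2 X3 N) * _ ≤ Real.exp (lamc * WW X1 X2 X3 N) * 1 :=
        mul_le_mul_of_nonneg_left hfin (Real.exp_pos _).le
    _ = _ := mul_one _

end Pool.Agent.H973.Hpam
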