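import Pool.Agent.H973.Hpam.OneRep
import Pool.Agent.H973.Hpam.StepExp

/-! # Two-replica estimates -/

namespace Pool.Agent.H973.Hpam

open Finset

section

variable {J ι : Type*} [Fintype J] [Fintype ι] (p φ : J → ℝ) (δ N : ℝ) (d f g : ι → ℝ)

/-- first replica magnetisation -/
def mag (d f : ι → ℝ) : ℝ := ∑ v, d v * f v

/-- the two-replica one-step weight -/
noncomputable def om : Option ι × J × J → ℝ
  | (some v, j, j') => d v / N * (p j * ((1 + δ * φ j * f v) * uu φ δ N (mag d f) j)) *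
      (p j' * ((1 + δ * φ j' * g v) * uu φ δ N (mag d g) j'))
  | (none, j, j') => (1 + δ) / N *
      (p j * ((1 + δ * φ j ^ 2) / (1 + δ) * uu φ δ N (mag d f) j)) *
      (p j' * ((1 + δ * φ j' ^ 2) / (1 + δ) * uu φ δ N (mag d g) j'))

/-- increment of the first magnetisation -/
def inc1 : Option ι × J × J → ℝ
  | (some v, j, _) => φ j + f v
  | (none, j, _) => 2 * φ j

/-- increment of the second magnetisation -/
def inc2 : Option ι × J × J → ℝ
  | (some v, _, j') => φ j' + g v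
  | (none, _, j') => 2 * φ j'

/-- increment of the overlap -/
def inc3 : Option ι × J × J → ℝ
  | (some v, j, j') => φ j * φ j' + f v * g v
  | (none, j, j') => 2 * (φ j * φ j')

lemma prod_sums (x y : J → ℝ) (c : ℝ) :
    ∑ j, ∑ j', c * x j * y j' = c * (∑ j, x j) * ∑ j', y j' := by
  rw [mul_assoc, Finset.sum_mul_sum, Finset.mul_sum]
  apply Finset.sum_congr rfl
  intro j _
  rw [Finset.mul_sum]
  apply Finset.sum_congr rfl
  intro j' _
  ring

lemma sum_om : ∑ o, om p φ δ N d f g o =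
    (∑ v, d v / N * (AA p φ δ N (mag d f) (f v) * AA p φ δ N (mag d g) (g v))) +
      (1 + δ) / N * (AA0 p φ δ N (mag d f) * AA0 p φ δ N (mag d g)) := by
  rw [Fintype.sum_prod_type, Fintype.sum_option, add_comm]
  congr 1
  · apply Finset.sum_congr rfl
    intro v _
    rw [Fintype.sum_prod_type]
    simp only [om]
    rw [prod_sums, AA, AA]
    ring
  · rw [Fintype.sum_prod_type]
    simp only [om]
    rw [prod_sums, AA0, AA0]
    ring

lemma sum_om_inc1 : ∑ o, om p φ δ N d f g o * inc1 φ f o =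
    (∑ v, d v / N * ((BB p φ δ N (mag d f) (f v) + f v * AA p φ δ N (mag d f) (f v)) *
      AA p φ δ N (mag d g) (g v))) +
      (1 + δ) / N * (2 * BB0 p φ δ N (mag d f) * AA0 p φ δ N (mag d g)) := by
  rw [Fintype.sum_prod_type, Fintype.sum_option, add_comm]
  congr 1
  · apply Finset.sum_congr rfl
    intro v _
    rw [Fintype.sum_prod_type]
    simp only [om, inc1]
    have h : ∀ j j' : J, d v / N * (p j * ((1 + δ * φ j * f v) * uu φ δ N (mag d f) j)) *
      (p j' * ((1 + δ * φ j' * g v) * uu φ δ N (mag d g) j')) * (φ j + f v) =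
      d v / N * (p j * ((1 + δ * φ j * f v) * φ j * uu φ δ N (mag d f) j) +
        f v * (p j * ((1 + δ * φ j * f v) * uu φ δ N (mag d f) j))) *
      (p j' * ((1 + δ * φ j' * g v) * uu φ δ N (mag d g) j')) := by
      intro j j'; ring
    simp only [h]
    rw [prod_sums, Finset.sum_add_distrib, ← Finset.mul_sum, BB, AA, AA]
    ring
  · rw [Fintype.sum_prod_type]
    simp only [om, inc1]
    have h : ∀ j j' : J, (1 + δ) / N *
      (p j * ((1 + δ * φ j ^ 2) / (1 + δ) * uu φ δ N (mag d f) j)) *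
      (p j' * ((1 + δ * φ j' ^ 2) / (1 + δ) * uu φ δ N (mag d g) j')) * (2 * φ j) =
      (1 + δ) / N * (2 * (p j * ((1 + δ * φ j ^ 2) / (1 + δ) * φ j * uu φ δ N (mag d f) j))) *
      (p j' * ((1 + δ * φ j' ^ 2) / (1 + δ) * uu φ δ N (mag d g) j')) := by
      intro j j'; ring
    simp only [h]
    rw [prod_sums, ← Finset.mul_sum, BB0, AA0]
    ring

lemma sum_om_inc2 : ∑ o, om p φ δ N d f g o * inc2 φ g o =
    (∑ v, d v / N * ((BB p φ δ N (mag d g) (g v) + g v * AA p φ δ N (mag d g) (g v)) *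
      AA p φ δ N (mag d f) (f v))) +
      (1 + δ) / N * (2 * BB0 p φ δ N (mag d g) * AA0 p φ δ N (mag d f)) := by
  rw [Fintype.sum_prod_type, Fintype.sum_option, add_comm]
  congr 1
  · apply Finset.sum_congr rfl
    intro v _
    rw [Fintype.sum_prod_type]
    simp only [om, inc2]
    have h : ∀ j j' : J, d v / N * (p j * ((1 + δ * φ j * f v) * uu φ δ N (mag d f) j)) *
      (p j' * ((1 + δ * φ j' * g v) * uu φ δ N (mag d g) j')) * (φ j' + g v) =
      d v / N * (p j * ((1 + δ * φ j * f v) * uu φ δ N (mag d f) j)) *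
      (p j' * ((1 + δ * φ j' * g v) * φ j' * uu φ δ N (mag d g) j') +
        g v * (p j' * ((1 + δ * φ j' * g v) * uu φ δ N (mag d g) j'))) := by
      intro j j'; ring
    simp only [h]
    rw [prod_sums, Finset.sum_add_distrib, ← Finset.mul_sum, BB, AA, AA]
    ring
  · rw [Fintype.sum_prod_type]
    simp only [om, inc2]
    have h : ∀ j j' : J, (1 + δ) / N *
      (p j * ((1 + δ * φ j ^ 2) / (1 + δ) * uu φ δ N (mag d f) j)) *
      (p j' * ((1 + δ * φ j' ^ 2) / (1 + δ) * uu φ δ N (mag d g) j')) * (2 * φ j') =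
      (1 + δ) / N * (p j * ((1 + δ * φ j ^ 2) / (1 + δ) * uu φ δ N (mag d f) j)) *
      (2 * (p j' * ((1 + δ * φ j' ^ 2) / (1 + δ) * φ j' * uu φ δ N (mag d g) j'))) := by
      intro j j'; ring
    simp only [h]
    rw [prod_sums, ← Finset.mul_sum, BB0, AA0]
    ring

lemma sum_om_inc3 : ∑ o, om p φ δ N d f g o * inc3 φ f g o =
    (∑ v, d v / N * (BB p φ δ N (mag d f) (f v) * BB p φ δ N (mag d g) (g v) +
      f v * g v * (AA p φ δ N (mag d f) (f v) * AA p φ δ N (mag d g) (g v)))) +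
      (1 + δ) / N * (2 * BB0 p φ δ N (mag d f) * BB0 p φ δ N (mag d g)) := by
  rw [Fintype.sum_prod_type, Fintype.sum_option, add_comm]
  congr 1
  · apply Finset.sum_congr rfl
    intro v _
    rw [Fintype.sum_prod_type]
    simp only [om, inc3]
    have h : ∀ j j' : J, d v / N * (p j * ((1 + δ * φ j * f v) * uu φ δ N (mag d f) j)) *
      (p j' * ((1 + δ * φ j' * g v) * uu φ δ N (mag d g) j')) * (φ j * φ j' + f v * g v) =
      d v / N * (p j * ((1 + δ * φ j * f v) * φ j * uu φ δ N (mag d f) j)) *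
      (p j' * ((1 + δ * φ j' * g v) * φ j' * uu φ δ N (mag d g) j')) +
      (d v / N * (f v * g v)) * (p j * ((1 + δ * φ j * f v) * uu φ δ N (mag d f) j)) *
      (p j' * ((1 + δ * φ j' * g v) * uu φ δ N (mag d g) j')) := by
      intro j j'; ring
    simp only [h, Finset.sum_add_distrib]
    rw [prod_sums, prod_sums, BB, BB, AA, AA]
    ring
  · rw [Fintype.sum_prod_type]
    simp only [om, inc3]
    have h : ∀ j j' : J, (1 + δ) / N *
      (p j * ((1 + δ * φ j ^ 2) / (1 + δ) * uu φ δ N (mag d f) j)) *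
      (p j' * ((1 + δ * φ j' ^ 2) / (1 + δ) * uu φ δ N (mag d g) j')) * (2 * (φ j * φ j')) =
      (2 * ((1 + δ) / N)) * (p j * ((1 + δ * φ j ^ 2) / (1 + δ) * φ j * uu φ δ N (mag d f) j)) *
      (p j' * ((1 + δ * φ j' ^ 2) / (1 + δ) * φ j' * uu φ δ N (mag d g) j')) := by
      intro j j'; ring
    simp only [h]
    rw [prod_sums, BB0, BB0]
    ring

end

section

variable {J ι : Type*} [Fintype J] [Fintype ι] {p φ : J → ℝ} {δ N : ℝ} {d f g : ι → ℝ}

/-- hypotheses on the state -/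
structure St (δ N : ℝ) (d f g : ι → ℝ) : Prop where
  d0 : ∀ v, 0 ≤ d v
  ds : ∑ v, d v = N - 1 - δ
  fb : ∀ v, |f v| ≤ 2
  gb : ∀ v, |g v| ≤ 2
  N1 : 1 ≤ N

lemma sum_d_le {X : ι → ℝ} {c : ℝ} (hd : ∀ v, 0 ≤ d v) (hs : ∑ v, d v ≤ N) (hN : 0 < N)
    (hc : 0 ≤ c) (hX : ∀ v, |X v| ≤ c) : |∑ v, d v / N * X v| ≤ c := by
  calc |∑ v, d v / N * X v| ≤ ∑ v, |d v / N * X v| := Finset.abs_sum_le_sum_abs _ _
    _ = ∑ v, d v / N * |X v| := by
        apply Finset.sum_congr rfl
        intro v _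
        rw [abs_mul, abs_of_nonneg (div_nonneg (hd v) hN.le)]
    _ ≤ ∑ v, d v / N * c :=
        Finset.sum_le_sum fun v _ => mul_le_mul_of_nonneg_left (hX v) (div_nonneg (hd v) hN.le)
    _ = (∑ v, d v) / N * c := by rw [← Finset.sum_mul, ← Finset.sum_div]
    _ ≤ 1 * c := by
        gcongr
        rw [div_le_one hN]
        exact hs
    _ = c := one_mul c

lemma mag_le {X : ι → ℝ} {c : ℝ} (hd : ∀ v, 0 ≤ d v) (hs : ∑ v, d v ≤ N) (hN : 0 < N)
    (hc : 0 ≤ c) (hX : ∀ v, |X v| ≤ c) : |mag d X| ≤ c * N := by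
  have h := sum_d_le hd hs hN hc hX
  have h2 : ∑ v, d v / N * X v = mag d X / N := by
    unfold mag
    rw [Finset.sum_div]
    apply Finset.sum_congr rfl
    intro v _
    ring
  rw [h2, abs_div, abs_of_pos hN, div_le_iff₀ hN] at h
  exact h

lemma St.sle (hb : Bal p φ δ) (hs : St δ N d f g) : ∑ v, d v ≤ N := by
  have := hb.d0
  rw [hs.ds]; linarith

lemma St.Mf (hb : Bal p φ δ) (hs : St δ N d f g) : |mag d f| ≤ 2 * N :=
  mag_le hs.d0 (hs.sle hb) (by linarith [hs.N1]) (by norm_num) hs.fb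

lemma St.Mg (hb : Bal p φ δ) (hs : St δ N d f g) : |mag d g| ≤ 2 * N :=
  mag_le hs.d0 (hs.sle hb) (by linarith [hs.N1]) (by norm_num) hs.gb

lemma St.C (hb : Bal p φ δ) (hs : St δ N d f g) : |mag d (fun v => f v * g v)| ≤ 4 * N := by
  apply mag_le hs.d0 (hs.sle hb) (by linarith [hs.N1]) (by norm_num)
  intro v
  rw [abs_mul]
  calc |f v| * |g v| ≤ 2 * 2 := mul_le_mul (hs.fb v) (hs.gb v) (abs_nonneg _) (by norm_num)
    _ = 4 := by norm_num

/-- exact formula for the total one-step mass -/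
lemma sum_om_sub_one (hb : Bal p φ δ) (hs : St δ N d f g) :
    (∑ o, om p φ δ N d f g o) - 1 =
      - (alp p φ δ N (mag d f) * alp p φ δ N (mag d g)) +
      δ ^ 2 * bet p φ δ N (mag d f) * bet p φ δ N (mag d g) * mag d (fun v => f v * g v) / N +
      rrr p φ δ N (mag d f) * rrr p φ δ N (mag d g) / (N * (1 + δ)) := by
  have hd := hb.d0
  have hN := hs.N1
  have hN0 : N ≠ 0 := by linarith
  have hd1 : (1 + δ) ≠ 0 := by linarith
  rw [sum_om]
  set α := alp p φ δ N (mag d f) with hα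
  set α' := alp p φ δ N (mag d g) with hα'
  set β := bet p φ δ N (mag d f) with hβ
  set β' := bet p φ δ N (mag d g) with hβ'
  set R := rrr p φ δ N (mag d f) with hR
  set R' := rrr p φ δ N (mag d g) with hR'
  have r1 : δ * β * mag d f = - N * α - R := rel_eq hb hN (hs.Mf hb)
  have r2 : δ * β' * mag d g = - N * α' - R' := rel_eq hb hN (hs.Mg hb)
  have z1 : (1 + δ) * AA0 p φ δ N (mag d f) = (1 + δ) * (1 + α) + R := AA0_eq hb
  have z2 : (1 + δ) * AA0 p φ δ N (mag d g) = (1 + δ) * (1 + α') + R' := AA0_eq hb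
  have h1 : ∑ v, d v / N * (AA p φ δ N (mag d f) (f v) * AA p φ δ N (mag d g) (g v)) =
      ((1 + α) * (1 + α') * (N - 1 - δ) + δ * β * (1 + α') * mag d f +
        δ * β' * (1 + α) * mag d g + δ ^ 2 * β * β' * mag d (fun v => f v * g v)) / N := by
    rw [← hs.ds]
    unfold mag
    rw [Finset.mul_sum, Finset.mul_sum, Finset.mul_sum, Finset.mul_sum,
      ← Finset.sum_add_distrib, ← Finset.sum_add_distrib, ← Finset.sum_add_distrib,
      Finset.sum_div]
    apply Finset.sum_congr rfl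
    intro v _
    have e1 := AA_eq (N := N) (M := mag d f) hb (f v)
    have e2 := AA_eq (N := N) (M := mag d g) hb (g v)
    rw [← hα, ← hβ] at e1
    rw [← hα', ← hβ'] at e2
    unfold mag at e1 e2
    rw [e1, e2]
    ring
  rw [h1]
  have z3 : AA0 p φ δ N (mag d f) = ((1 + δ) * (1 + α) + R) / (1 + δ) := by
    rw [← z1]; field_simp
  have z4 : AA0 p φ δ N (mag d g) = ((1 + δ) * (1 + α') + R') / (1 + δ) := by
    rw [← z2]; field_simp
  rw [z3, z4]
  have h2 : (1 + α) * (1 + α') * (N - 1 - δ) + δ * β * (1 + α') * mag d f +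
        δ * β' * (1 + α) * mag d g + δ ^ 2 * β * β' * mag d (fun v => f v * g v) =
      (1 + α) * (1 + α') * (N - 1 - δ) + (1 + α') * (- N * α - R) +
        (1 + α) * (- N * α' - R') + δ ^ 2 * β * β' * mag d (fun v => f v * g v) := by
    rw [← r1, ← r2]; ring
  rw [h2]
  field_simp
  ring

/-- bound for the one-step mass in terms of `η` -/
lemma sum_om_abs_le (hb : Bal p φ δ) (hs : St δ N d f g) :
    |(∑ o, om p φ δ N d f g o) - 1| ≤
      4 * eta δ N (mag d f) ^ 2 * eta δ N (mag d g) ^ 2 +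
      16 * δ ^ 2 * eta δ N (mag d f) * eta δ N (mag d g) *
        (|mag d (fun v => f v * g v)| / N) +
      36 * δ ^ 2 * eta δ N (mag d f) * eta δ N (mag d g) / N := by
  have hd := hb.d0
  have hN := hs.N1
  have hN0 : 0 < N := by linarith
  rw [sum_om_sub_one hb hs]
  have a1 := alp_abs_le hb hN (hs.Mf hb)
  have a2 := alp_abs_le hb hN (hs.Mg hb)
  have b1 := bet_abs_le hb hN (hs.Mf hb)
  have b2 := bet_abs_le hb hN (hs.Mg hb)
  have r1 := rrr_abs_le hb hN (hs.Mf hb)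
  have r2 := rrr_abs_le hb hN (hs.Mg hb)
  have e1 := eta_nonneg (M := mag d f) hb hN
  have e2 := eta_nonneg (M := mag d g) hb hN
  set η := eta δ N (mag d f)
  set η' := eta δ N (mag d g)
  set C := mag d (fun v => f v * g v)
  have t1 : |-(alp p φ δ N (mag d f) * alp p φ δ N (mag d g))| ≤ 4 * η ^ 2 * η' ^ 2 := by
    rw [abs_neg, abs_mul]
    calc _ ≤ (2 * η ^ 2) * (2 * η' ^ 2) := mul_le_mul a1 a2 (abs_nonneg _) (by positivity)
      _ = _ := by ring
  have t2 : |δ ^ 2 * bet p φ δ N (mag d f) * bet p φ δ N (mag d g) * C / N| ≤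
      16 * δ ^ 2 * η * η' * (|C| / N) := by
    rw [abs_div, abs_mul, abs_mul, abs_mul, abs_of_pos hN0, abs_of_nonneg (sq_nonneg δ)]
    calc δ ^ 2 * |bet p φ δ N (mag d f)| * |bet p φ δ N (mag d g)| * |C| / N
        ≤ δ ^ 2 * (4 * η) * (4 * η') * |C| / N := by gcongr
      _ = _ := by ring
  have t3 : |rrr p φ δ N (mag d f) * rrr p φ δ N (mag d g) / (N * (1 + δ))| ≤
      36 * δ ^ 2 * η * η' / N := by
    rw [abs_div, abs_mul, abs_of_pos (show 0 < N * (1 + δ) by positivity)]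
    calc |rrr p φ δ N (mag d f)| * |rrr p φ δ N (mag d g)| / (N * (1 + δ))
        ≤ (6 * δ * η) * (6 * δ * η') / (N * 1) := by
          apply div_le_div₀ (by positivity) _ (by positivity) _
          · exact mul_le_mul r1 r2 (abs_nonneg _) (by positivity)
          · gcongr; linarith
      _ = _ := by ring
  exact (abs_add_three _ _ _).trans (by linarith)

/-- crude bound, valid always -/
lemma sum_om_crude (hb : Bal p φ δ) (hs : St δ N d f g) :
    |(∑ o, om p φ δ N d f g o) - 1| ≤ 1 / 10 ^ 7 := by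
  have hd := hb.d0
  have hd1 := hb.d1
  have hN := hs.N1
  have hN0 : 0 < N := by linarith
  refine (sum_om_abs_le hb hs).trans ?_
  have e1 := eta_nonneg (M := mag d f) hb hN
  have e2 := eta_nonneg (M := mag d g) hb hN
  have f1 : eta δ N (mag d f) ≤ 7 / 1000 := (eta_le hb hN (hs.Mf hb)).trans (by linarith)
  have f2 : eta δ N (mag d g) ≤ 7 / 1000 := (eta_le hb hN (hs.Mg hb)).trans (by linarith)
  have hC : |mag d (fun v => f v * g v)| / N ≤ 4 := by
    rw [div_le_iff₀ hN0]; exact hs.C hb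
  set η := eta δ N (mag d f)
  set η' := eta δ N (mag d g)
  calc (_ : ℝ) ≤ 4 * (7 / 1000) ^ 2 * (7 / 1000) ^ 2 +
        16 * (1 / 1000) ^ 2 * (7 / 1000) * (7 / 1000) * 4 +
        36 * (1 / 1000) ^ 2 * (7 / 1000) * (7 / 1000) / 1 := by gcongr
    _ ≤ 1 / 10 ^ 7 := by norm_num

lemma eta_le_w (hb : Bal p φ δ) {M w : ℝ} (hN : 1 ≤ N) (hM : |M| ≤ w) (hw : 3 ≤ w) :
    eta δ N M ≤ 3 * δ * (w / N) := by
  have hd := hb.d0
  unfold eta
  rw [mul_div_assoc', div_le_div_iff_of_pos_right (by linarith)]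
  nlinarith

lemma mag_le_w {X1 X2 X3 N : ℝ} (hN : 4000 ≤ N) :
    |X1| ≤ ww X1 X2 X3 N ∧ |X2| ≤ ww X1 X2 X3 N ∧ |X3| ≤ ww X1 X2 X3 N := by
  have h := ww_sq (X1 := X1) (X2 := X2) (X3 := X3) hN
  have h0 : 0 ≤ ww X1 X2 X3 N := by linarith [ww_ge (X1 := X1) (X2 := X2) (X3 := X3) hN]
  refine ⟨?_, ?_, ?_⟩ <;>
  · apply abs_le_of_sq_le_sq _ h0
    rw [h]
    nlinarith [sq_nonneg X1, sq_nonneg X2, sq_nonneg X3]

/-- refined bound -/
lemma sum_om_fine (hb : Bal p φ δ) (hs : St δ N d f g) (hN4 : 4000 ≤ N) :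
    |(∑ o, om p φ δ N d f g o) - 1| ≤
      1800 * δ ^ 4 * (ww (mag d f) (mag d g) (mag d (fun v => f v * g v)) N) ^ 3 / N ^ 3 := by
  have hd := hb.d0
  have hd1 := hb.d1
  have hN := hs.N1
  have hN0 : 0 < N := by linarith
  refine (sum_om_abs_le hb hs).trans ?_
  obtain ⟨m1, m2, m3⟩ := mag_le_w (X1 := mag d f) (X2 := mag d g)
    (X3 := mag d (fun v => f v * g v)) hN4
  have hw := ww_ge (X1 := mag d f) (X2 := mag d g) (X3 := mag d (fun v => f v * g v)) hN4
  have hw5 := ww_le hN4 (hs.Mf hb) (hs.Mg hb) (hs.C hb)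
  set w := ww (mag d f) (mag d g) (mag d (fun v => f v * g v)) N
  have e1 := eta_nonneg (M := mag d f) hb hN
  have e2 := eta_nonneg (M := mag d g) hb hN
  have f1 := eta_le_w hb hN m1 (by linarith)
  have f2 := eta_le_w hb hN m2 (by linarith)
  have hC : |mag d (fun v => f v * g v)| / N ≤ w / N := by gcongr
  set η := eta δ N (mag d f)
  set η' := eta δ N (mag d g)
  set y := w / N with hy
  have hw0 : 0 < w := by linarith
  have hy0 : 0 < y := by positivity
  have hy5 : y ≤ 5 := by rw [hy, div_le_iff₀ hN0]; exact hw5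
  have hNinv : 1 / N ≤ y / 1788 := by
    rw [hy, div_div, div_le_div_iff₀ hN0 (by positivity)]
    nlinarith only [hw, hN0]
  have hgoal : 1800 * δ ^ 4 * w ^ 3 / N ^ 3 = 1800 * δ ^ 4 * y ^ 3 := by
    rw [hy]; ring
  rw [hgoal]
  have h1 : 4 * η ^ 2 * η' ^ 2 ≤ 4 * (3 * δ * y) ^ 2 * (3 * δ * y) ^ 2 := by gcongr
  have h2 : 16 * δ ^ 2 * η * η' * (|mag d (fun v => f v * g v)| / N) ≤
      16 * δ ^ 2 * (3 * δ * y) * (3 * δ * y) * y := by gcongr
  have h3 : 36 * δ ^ 2 * η * η' / N ≤ 36 * δ ^ 2 * (3 * δ * y) * (3 * δ * y) * (y / 1788) := by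
    calc 36 * δ ^ 2 * η * η' / N = 36 * δ ^ 2 * η * η' * (1 / N) := by ring
      _ ≤ _ := by gcongr
  have h4 : y ^ 4 ≤ 5 * y ^ 3 := by
    have : 0 < y ^ 3 := by positivity
    calc y ^ 4 = y * y ^ 3 := by ring
      _ ≤ 5 * y ^ 3 := by gcongr
  have h5 : δ ^ 4 * y ^ 4 ≤ δ ^ 4 * (5 * y ^ 3) := by gcongr
  have h6 : 0 ≤ δ ^ 4 * y ^ 3 := by positivity
  nlinarith only [h1, h2, h3, h5, h6]

/-- auxiliary bounds for `A(f)`, `B(f)` -/
lemma AB_bounds (hb : Bal p φ δ) {M f : ℝ} (hN : 1 ≤ N) (hM : |M| ≤ 2 * N) (hf : |f| ≤ 2) :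
    |AA p φ δ N M f - 1| ≤ 0.022 * eta δ N M ∧ |AA p φ δ N M f| ≤ 1.001 ∧
      |BB p φ δ N M f - δ * f| ≤ 5 * eta δ N M := by
  have hd := hb.d0
  have hd1 := hb.d1
  have e1 := eta_nonneg (M := M) hb hN
  have f1 : eta δ N M ≤ 7 / 1000 := (eta_le hb hN hM).trans (by linarith)
  have h1 := AA_sub_le hb hN hM hf
  have h2 : 22 * δ * eta δ N M ≤ 0.022 * eta δ N M := by nlinarith
  have h3 : |AA p φ δ N M f - 1| ≤ 0.022 * eta δ N M := h1.trans h2
  refine ⟨h3, ?_, BB_sub_le hb hN hM hf⟩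
  have h4 := abs_le.mp h3
  rw [abs_le]
  constructor <;> linarith

lemma eta_sum (hb : Bal p φ δ) {M M' : ℝ} (hN : 1 ≤ N) :
    N * (eta δ N M + eta δ N M') = δ * (6 + 2 * |M| + 2 * |M'|) := by
  unfold eta
  field_simp
  ring

lemma AA_mul_sub (x y : ℝ) {a b : ℝ} (hx : |x - 1| ≤ a) (hy : |y - 1| ≤ b) (hy2 : |y| ≤ 1.001) :
    |x * y - 1| ≤ 1.001 * a + b := by
  have ha : 0 ≤ a := (abs_nonneg _).trans hx
  have h : x * y - 1 = (x - 1) * y + (y - 1) := by ring
  rw [h]
  calc |(x - 1) * y + (y - 1)| ≤ |(x - 1) * y| + |y - 1| := abs_add_le _ _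
    _ = |x - 1| * |y| + |y - 1| := by rw [abs_mul]
    _ ≤ a * 1.001 + b := by gcongr
    _ = _ := by ring

/-- drift of the magnetisations, generic version -/
lemma drift_mag (hb : Bal p φ δ) {d f g : ι → ℝ} (hs : St δ N d f g) :
    |((∑ v, d v / N * ((BB p φ δ N (mag d f) (f v) + f v * AA p φ δ N (mag d f) (f v)) *
      AA p φ δ N (mag d g) (g v))) +
      (1 + δ) / N * (2 * BB0 p φ δ N (mag d f) * AA0 p φ δ N (mag d g))) - mag d f / N| ≤
      (12 * δ * (|mag d f| + |mag d g|) + 5) / N := by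
  have hd := hb.d0
  have hd1 := hb.d1
  have hN := hs.N1
  have hN0 : 0 < N := by linarith
  have e1 := eta_nonneg (M := mag d f) hb hN
  have e2 := eta_nonneg (M := mag d g) hb hN
  have f1 : eta δ N (mag d f) ≤ 7 / 1000 := (eta_le hb hN (hs.Mf hb)).trans (by linarith)
  have f2 : eta δ N (mag d g) ≤ 7 / 1000 := (eta_le hb hN (hs.Mg hb)).trans (by linarith)
  have hes := eta_sum (M := mag d f) (M' := mag d g) hb hN
  set η := eta δ N (mag d f)
  set η' := eta δ N (mag d g)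
  -- pointwise remainder
  have hrem : ∀ v, |(BB p φ δ N (mag d f) (f v) + f v * AA p φ δ N (mag d f) (f v)) *
      AA p φ δ N (mag d g) (g v) - (δ * f v + f v)| ≤ 5.2 * (η + η') := by
    intro v
    obtain ⟨a1, a2, a3⟩ := AB_bounds hb hN (hs.Mf hb) (hs.fb v)
    obtain ⟨b1, b2, b3⟩ := AB_bounds hb hN (hs.Mg hb) (hs.gb v)
    have hAA := AA_mul_sub _ _ a1 b1 b2
    set A := AA p φ δ N (mag d f) (f v)
    set A' := AA p φ δ N (mag d g) (g v)
    set B := BB p φ δ N (mag d f) (f v)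
    have h : (B + f v * A) * A' - (δ * f v + f v) =
        (B - δ * f v) * A' + δ * f v * (A' - 1) + f v * (A * A' - 1) := by ring
    rw [h]
    have k1 : |(B - δ * f v) * A'| ≤ 5 * η * 1.001 := by
      rw [abs_mul]; exact mul_le_mul a3 b2 (abs_nonneg _) (by positivity)
    have k2 : |δ * f v * (A' - 1)| ≤ 1 / 1000 * 2 * (0.022 * η') := by
      rw [abs_mul, abs_mul, abs_of_pos hd]
      have := hs.fb v
      gcongr
    have k3 : |f v * (A * A' - 1)| ≤ 2 * (1.001 * (0.022 * η) + 0.022 * η') := by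
      rw [abs_mul]
      exact mul_le_mul (hs.fb v) hAA (abs_nonneg _) (by norm_num)
    refine (abs_add_three _ _ _).trans ?_
    linarith
  have hsum : (∑ v, d v / N * ((BB p φ δ N (mag d f) (f v) +
      f v * AA p φ δ N (mag d f) (f v)) * AA p φ δ N (mag d g) (g v))) =
      (∑ v, d v / N * ((BB p φ δ N (mag d f) (f v) + f v * AA p φ δ N (mag d f) (f v)) *
      AA p φ δ N (mag d g) (g v) - (δ * f v + f v))) + (1 + δ) * mag d f / N := by
    unfold mag
    rw [Finset.mul_sum, Finset.sum_div, ← Finset.sum_add_distrib]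
    apply Finset.sum_congr rfl
    intro v _
    ring
  rw [hsum]
  have hb1 := sum_d_le (N := N) hs.d0 (hs.sle hb) hN0 (by positivity) hrem
  have hB0 := BB0_abs_le hb hN (hs.Mf hb)
  have hA0 := AA0_abs_le hb hN (hs.Mg hb)
  have hl : |(1 + δ) / N * (2 * BB0 p φ δ N (mag d f) * AA0 p φ δ N (mag d g))| ≤ 4.2 / N := by
    rw [abs_mul, abs_div, abs_of_pos hN0, abs_of_pos (show 0 < 1 + δ by linarith), abs_mul,
      abs_mul, abs_of_pos (show (0 : ℝ) < 2 by norm_num)]
    calc (1 + δ) / N * (2 * |BB0 p φ δ N (mag d f)| * |AA0 p φ δ N (mag d g)|)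
        ≤ (1 + 1 / 1000) / N * (2 * 2.04 * 1.02) := by gcongr
      _ = 4.1657616 / N := by ring
      _ ≤ 4.2 / N := by gcongr; norm_num
  have hc : |δ * mag d f / N| = δ * |mag d f| / N := by
    rw [abs_div, abs_mul, abs_of_pos hN0, abs_of_pos hd]
  have h5 : (∑ v, d v / N * ((BB p φ δ N (mag d f) (f v) + f v * AA p φ δ N (mag d f) (f v)) *
      AA p φ δ N (mag d g) (g v) - (δ * f v + f v))) + (1 + δ) * mag d f / N +
      (1 + δ) / N * (2 * BB0 p φ δ N (mag d f) * AA0 p φ δ N (mag d g)) - mag d f / N =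
      (∑ v, d v / N * ((BB p φ δ N (mag d f) (f v) + f v * AA p φ δ N (mag d f) (f v)) *
      AA p φ δ N (mag d g) (g v) - (δ * f v + f v))) + δ * mag d f / N +
      (1 + δ) / N * (2 * BB0 p φ δ N (mag d f) * AA0 p φ δ N (mag d g)) := by
    ring
  rw [h5]
  refine (abs_add_three _ _ _).trans ?_
  rw [hc]
  have h6 : 5.2 * (η + η') = 5.2 * δ * (6 + 2 * |mag d f| + 2 * |mag d g|) / N := by
    rw [eq_div_iff hN0.ne']
    calc 5.2 * (η + η') * N = 5.2 * (N * (η + η')) := by ring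
      _ = _ := by rw [hes]; ring
  calc _ ≤ 5.2 * δ * (6 + 2 * |mag d f| + 2 * |mag d g|) / N + δ * |mag d f| / N + 4.2 / N := by
        rw [← h6]
        linarith
    _ = (5.2 * δ * (6 + 2 * |mag d f| + 2 * |mag d g|) + δ * |mag d f| + 4.2) / N := by ring
    _ ≤ (12 * δ * (|mag d f| + |mag d g|) + 5) / N := by
        apply div_le_div_of_nonneg_right _ hN0.le
        have q1 : 0 ≤ δ * |mag d f| := by positivity
        have q2 : 0 ≤ δ * |mag d g| := by positivity
        nlinarith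

lemma St.swap {d f g : ι → ℝ} (hs : St δ N d f g) : St δ N d g f :=
  ⟨hs.d0, hs.ds, hs.gb, hs.fb, hs.N1⟩

lemma t1_bound (hb : Bal p φ δ) {d f g : ι → ℝ} (hs : St δ N d f g) :
    |(∑ o, om p φ δ N d f g o * inc1 φ f o) - mag d f / N| ≤
      (20 * δ * (|mag d f| + |mag d g| + |mag d (fun v => f v * g v)|) + 34) / N := by
  have hd := hb.d0
  have hN := hs.N1
  have hN0 : 0 < N := by linarith
  rw [sum_om_inc1]
  refine (drift_mag hb hs).trans ?_
  apply div_le_div_of_nonneg_right _ hN0.le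
  have q1 : 0 ≤ δ * |mag d f| := by positivity
  have q2 : 0 ≤ δ * |mag d g| := by positivity
  have q3 : 0 ≤ δ * |mag d (fun v => f v * g v)| := by positivity
  nlinarith

lemma t2_bound (hb : Bal p φ δ) {d f g : ι → ℝ} (hs : St δ N d f g) :
    |(∑ o, om p φ δ N d f g o * inc2 φ g o) - mag d g / N| ≤
      (20 * δ * (|mag d f| + |mag d g| + |mag d (fun v => f v * g v)|) + 34) / N := by
  have hd := hb.d0
  have hN := hs.N1
  have hN0 : 0 < N := by linarith
  rw [sum_om_inc2]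
  refine (drift_mag hb hs.swap).trans ?_
  apply div_le_div_of_nonneg_right _ hN0.le
  have q1 : 0 ≤ δ * |mag d f| := by positivity
  have q2 : 0 ≤ δ * |mag d g| := by positivity
  have q3 : 0 ≤ δ * |mag d (fun v => f v * g v)| := by positivity
  nlinarith

lemma t3_bound (hb : Bal p φ δ) {d f g : ι → ℝ} (hs : St δ N d f g) :
    |(∑ o, om p φ δ N d f g o * inc3 φ f g o) - mag d (fun v => f v * g v) / N| ≤
      (20 * δ * (|mag d f| + |mag d g| + |mag d (fun v => f v * g v)|) + 34) / N := by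
  have hd := hb.d0
  have hd1 := hb.d1
  have hN := hs.N1
  have hN0 : 0 < N := by linarith
  have e1 := eta_nonneg (M := mag d f) hb hN
  have e2 := eta_nonneg (M := mag d g) hb hN
  have f1 : eta δ N (mag d f) ≤ 7 / 1000 := (eta_le hb hN (hs.Mf hb)).trans (by linarith)
  have f2 : eta δ N (mag d g) ≤ 7 / 1000 := (eta_le hb hN (hs.Mg hb)).trans (by linarith)
  have hes := eta_sum (M := mag d f) (M' := mag d g) hb hN
  rw [sum_om_inc3]
  set η := eta δ N (mag d f)
  set η' := eta δ N (mag d g)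
  set C := mag d (fun v => f v * g v) with hC
  have hrem : ∀ v, |(BB p φ δ N (mag d f) (f v) * BB p φ δ N (mag d g) (g v) +
      f v * g v * (AA p φ δ N (mag d f) (f v) * AA p φ δ N (mag d g) (g v))) -
      (δ ^ 2 * (f v * g v) + f v * g v)| ≤ 0.3 * (η + η') := by
    intro v
    obtain ⟨a1, a2, a3⟩ := AB_bounds hb hN (hs.Mf hb) (hs.fb v)
    obtain ⟨b1, b2, b3⟩ := AB_bounds hb hN (hs.Mg hb) (hs.gb v)
    have hAA := AA_mul_sub _ _ a1 b1 b2
    set A := AA p φ δ N (mag d f) (f v)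
    set A' := AA p φ δ N (mag d g) (g v)
    set B := BB p φ δ N (mag d f) (f v)
    set B' := BB p φ δ N (mag d g) (g v)
    have h : (B * B' + f v * g v * (A * A')) - (δ ^ 2 * (f v * g v) + f v * g v) =
        (B - δ * f v) * (B' - δ * g v) + (δ * f v * (B' - δ * g v) + δ * g v * (B - δ * f v)) +
          f v * g v * (A * A' - 1) := by ring
    rw [h]
    have k1 : |(B - δ * f v) * (B' - δ * g v)| ≤ 5 * η * (5 * (7 / 1000)) := by
      rw [abs_mul]
      exact mul_le_mul a3 (b3.trans (by linarith)) (abs_nonneg _) (by positivity)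
    have k2 : |δ * f v * (B' - δ * g v) + δ * g v * (B - δ * f v)| ≤
        1 / 1000 * 2 * (5 * η') + 1 / 1000 * 2 * (5 * η) := by
      refine (abs_add_le _ _).trans ?_
      rw [abs_mul, abs_mul, abs_mul, abs_mul, abs_of_pos hd]
      have h1 := hs.fb v
      have h2 := hs.gb v
      gcongr
    have k3 : |f v * g v * (A * A' - 1)| ≤ 2 * 2 * (1.001 * (0.022 * η) + 0.022 * η') := by
      rw [abs_mul, abs_mul]
      have h1 := hs.fb v
      have h2 := hs.gb v
      gcongr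
    refine (abs_add_three _ _ _).trans ?_
    linarith
  have hsum : (∑ v, d v / N * (BB p φ δ N (mag d f) (f v) * BB p φ δ N (mag d g) (g v) +
      f v * g v * (AA p φ δ N (mag d f) (f v) * AA p φ δ N (mag d g) (g v)))) =
      (∑ v, d v / N * ((BB p φ δ N (mag d f) (f v) * BB p φ δ N (mag d g) (g v) +
      f v * g v * (AA p φ δ N (mag d f) (f v) * AA p φ δ N (mag d g) (g v))) -
      (δ ^ 2 * (f v * g v) + f v * g v))) + (1 + δ ^ 2) * C / N := by
    rw [hC]
    unfold mag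
    rw [Finset.mul_sum, Finset.sum_div, ← Finset.sum_add_distrib]
    apply Finset.sum_congr rfl
    intro v _
    ring
  rw [hsum]
  have hb1 := sum_d_le (N := N) hs.d0 (hs.sle hb) hN0 (by positivity) hrem
  have hB0 := BB0_abs_le hb hN (hs.Mf hb)
  have hB0' := BB0_abs_le hb hN (hs.Mg hb)
  have hl : |(1 + δ) / N * (2 * BB0 p φ δ N (mag d f) * BB0 p φ δ N (mag d g))| ≤ 9 / N := by
    rw [abs_mul, abs_div, abs_of_pos hN0, abs_of_pos (show 0 < 1 + δ by linarith), abs_mul,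
      abs_mul, abs_of_pos (show (0 : ℝ) < 2 by norm_num)]
    calc (1 + δ) / N * (2 * |BB0 p φ δ N (mag d f)| * |BB0 p φ δ N (mag d g)|)
        ≤ (1 + 1 / 1000) / N * (2 * 2.04 * 2.04) := by gcongr
      _ = 8.3315232 / N := by ring
      _ ≤ 9 / N := by gcongr; norm_num
  have hc : |δ ^ 2 * C / N| = δ ^ 2 * |C| / N := by
    rw [abs_div, abs_mul, abs_of_pos hN0, abs_of_nonneg (sq_nonneg δ)]
  have h5 : (∑ v, d v / N * ((BB p φ δ N (mag d f) (f v) * BB p φ δ N (mag d g) (g v) +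
      f v * g v * (AA p φ δ N (mag d f) (f v) * AA p φ δ N (mag d g) (g v))) -
      (δ ^ 2 * (f v * g v) + f v * g v))) + (1 + δ ^ 2) * C / N +
      (1 + δ) / N * (2 * BB0 p φ δ N (mag d f) * BB0 p φ δ N (mag d g)) - C / N =
      (∑ v, d v / N * ((BB p φ δ N (mag d f) (f v) * BB p φ δ N (mag d g) (g v) +
      f v * g v * (AA p φ δ N (mag d f) (f v) * AA p φ δ N (mag d g) (g v))) -
      (δ ^ 2 * (f v * g v) + f v * g v))) + δ ^ 2 * C / N +
      (1 + δ) / N * (2 * BB0 p φ δ N (mag d f) * BB0 p φ δ N (mag d g)) := by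
    ring
  rw [h5]
  refine (abs_add_three _ _ _).trans ?_
  rw [hc]
  have h6 : 0.3 * (η + η') = 0.3 * δ * (6 + 2 * |mag d f| + 2 * |mag d g|) / N := by
    rw [eq_div_iff hN0.ne']
    calc 0.3 * (η + η') * N = 0.3 * (N * (η + η')) := by ring
      _ = _ := by rw [hes]; ring
  calc _ ≤ 0.3 * δ * (6 + 2 * |mag d f| + 2 * |mag d g|) / N + δ ^ 2 * |C| / N + 9 / N := by
        rw [← h6]
        linarith
    _ = (0.3 * δ * (6 + 2 * |mag d f| + 2 * |mag d g|) + δ * (δ * |C|) + 9) / N := by ring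
    _ ≤ (20 * δ * (|mag d f| + |mag d g| + |C|) + 34) / N := by
        apply div_le_div_of_nonneg_right _ hN0.le
        have q1 : 0 ≤ δ * |mag d f| := by positivity
        have q2 : 0 ≤ δ * |mag d g| := by positivity
        have q3 : 0 ≤ δ * |C| := by positivity
        have q4 : δ * (δ * |C|) ≤ 1 * (δ * |C|) := by gcongr; linarith
        nlinarith

lemma om_nonneg (hb : Bal p φ δ) {d f g : ι → ℝ} (hs : St δ N d f g) (o : Option ι × J × J) :
    0 ≤ om p φ δ N d f g o := by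
  have hd := hb.d0
  have hd1 := hb.d1
  have hN := hs.N1
  have hN0 : 0 < N := by linarith
  have h1 : ∀ (x y : ℝ), |x| ≤ 2 → |y| ≤ 2 → 0 ≤ 1 + δ * x * y := by
    intro x y hx hy
    have : |x * y| ≤ 4 := by
      rw [abs_mul]
      calc |x| * |y| ≤ 2 * 2 := mul_le_mul hx hy (abs_nonneg _) (by norm_num)
        _ = 4 := by norm_num
    have := (abs_le.mp this).1
    nlinarith
  have hu := fun j => (uu_bounds hb hN (hs.Mf hb) j).1
  have hu' := fun j => (uu_bounds hb hN (hs.Mg hb) j).1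
  obtain ⟨o, j, j'⟩ := o
  have u1 : 0 ≤ uu φ δ N (mag d f) j := by linarith [hu j]
  have u2 : 0 ≤ uu φ δ N (mag d g) j' := by linarith [hu' j']
  have p1 := hb.p0 j
  have p2 := hb.p0 j'
  cases o with
  | none =>
    simp only [om]
    positivity
  | some v =>
    simp only [om]
    have h2 := h1 _ _ (hb.bd j) (hs.fb v)
    have h3 := h1 _ _ (hb.bd j') (hs.gb v)
    have h4 := hs.d0 v
    positivity

lemma inc1_le (hb : Bal p φ δ) {d f g : ι → ℝ} (hs : St δ N d f g) (o : Option ι × J × J) :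
    |inc1 φ f o| ≤ 4 := by
  obtain ⟨o, j, j'⟩ := o
  have h := abs_le.mp (hb.bd j)
  cases o with
  | none => simp only [inc1]; rw [abs_le]; constructor <;> linarith
  | some v =>
    have h2 := abs_le.mp (hs.fb v)
    simp only [inc1]; rw [abs_le]; constructor <;> linarith

lemma inc2_le (hb : Bal p φ δ) {d f g : ι → ℝ} (hs : St δ N d f g) (o : Option ι × J × J) :
    |inc2 φ g o| ≤ 4 := by
  obtain ⟨o, j, j'⟩ := o
  have h := abs_le.mp (hb.bd j')
  cases o with
  | none => simp only [inc2]; rw [abs_le]; constructor <;> linarith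
  | some v =>
    have h2 := abs_le.mp (hs.gb v)
    simp only [inc2]; rw [abs_le]; constructor <;> linarith

lemma inc3_le (hb : Bal p φ δ) {d f g : ι → ℝ} (hs : St δ N d f g) (o : Option ι × J × J) :
    |inc3 φ f g o| ≤ 8 := by
  obtain ⟨o, j, j'⟩ := o
  have h4 : |φ j * φ j'| ≤ 4 := by
    rw [abs_mul]
    calc |φ j| * |φ j'| ≤ 2 * 2 := mul_le_mul (hb.bd j) (hb.bd j') (abs_nonneg _) (by norm_num)
      _ = 4 := by norm_num
  have h5 := abs_le.mp h4
  cases o with
  | none => simp only [inc3]; rw [abs_le]; constructor <;> linarith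
  | some v =>
    have h6 : |f v * g v| ≤ 4 := by
      rw [abs_mul]
      calc |f v| * |g v| ≤ 2 * 2 := mul_le_mul (hs.fb v) (hs.gb v) (abs_nonneg _) (by norm_num)
        _ = 4 := by norm_num
    have h7 := abs_le.mp h6
    simp only [inc3]; rw [abs_le]; constructor <;> linarith

/-- The one-step inequality for the potential. -/
theorem step_main (hb : Bal p φ δ) {d f g : ι → ℝ} (hs : St δ N d f g) (hN4 : 4000 ≤ N) :
    ∑ o, om p φ δ N d f g o * Real.exp (lamc * WW (mag d f + inc1 φ f o) (mag d g + inc2 φ g o)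
      (mag d (fun v => f v * g v) + inc3 φ f g o) (N + 2)) ≤
      Real.exp (lamc * WW (mag d f) (mag d g) (mag d (fun v => f v * g v)) N) :=
  step_exp (om p φ δ N d f g) (inc1 φ f) (inc2 φ g) (inc3 φ f g) (om_nonneg hb hs)
    (inc1_le hb hs) (inc2_le hb hs) (inc3_le hb hs) hN4 hb.d0.le hb.d1 (hs.Mf hb) (hs.Mg hb)
    (hs.C hb) (sum_om_fine hb hs hN4) (t1_bound hb hs) (t2_bound hb hs) (t3_bound hb hs)

end

end Pool.Agent.H973.Hpam
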