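import Pool.Agent.H973.Hpam.Rec
import Pool.Agent.H973.Hpam.TwoRep

/-! # The second moment of the likelihood ratio -/

namespace Pool.Agent.H973.Hpam

open Finset

/-- linear statistic of the degrees -/
def lin {n : ℕ} (a : Hist n) (F : Fin n → ℝ) : ℝ := ∑ v, (deg a n v : ℝ) * F v

lemma lin_snoc_castSucc {n : ℕ} (a : Hist n) (w : Fin n) (F : Fin n → ℝ) (F' : Fin (n + 1) → ℝ)
    (c : ℝ) (h1 : ∀ v, F' v.castSucc = F v) (h2 : F' (Fin.last n) = c) :
    lin (snocH a w.castSucc) F' = lin a F + (c + F w) := by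
  unfold lin
  rw [Fin.sum_univ_castSucc]
  simp only [deg_snocH_succ_castSucc, deg_snocH_succ_last, h1, h2]
  have h3 : ¬ (w.castSucc = Fin.last n) := Fin.castSucc_ne_last w
  have h4 : ∀ x : Fin n, ((deg a n x + if w.castSucc = x.castSucc then 1 else 0 : ℕ) : ℝ) * F x =
      (deg a n x : ℝ) * F x + if w = x then F x else 0 := by
    intro x
    by_cases hx : w = x
    · subst hx; simp; ring
    · simp [hx]
  simp only [h4, Finset.sum_add_distrib, Finset.sum_ite_eq, Finset.mem_univ, if_true, h3, if_false]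
  push_cast
  ring

lemma lin_snoc_last {n : ℕ} (a : Hist n) (F : Fin n → ℝ) (F' : Fin (n + 1) → ℝ)
    (c : ℝ) (h1 : ∀ v, F' v.castSucc = F v) (h2 : F' (Fin.last n) = c) :
    lin (snocH a (Fin.last n)) F' = lin a F + 2 * c := by
  unfold lin
  rw [Fin.sum_univ_castSucc]
  simp only [deg_snocH_succ_castSucc, deg_snocH_succ_last, h1, h2]
  have h3 : ∀ x : Fin n, ¬ (Fin.last n = x.castSucc) := fun x h => Fin.castSucc_ne_last x h.symm
  simp [h3]

/-- reference link probability: the label-blind process -/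
noncomputable def refP {n : ℕ} (δ : ℝ) (a : Hist n) (k : Fin n) : ℝ :=
  if target a k < k then (deg a k.val (target a k) : ℝ) / (2 * k.val + 1 + δ)
  else (1 + δ) / (2 * k.val + 1 + δ)

/-- reference law of the history -/
noncomputable def refw {n : ℕ} (δ : ℝ) (a : Hist n) : ℝ := ∏ k, refP δ a k

lemma refP_snoc_castSucc {n : ℕ} (δ : ℝ) (a : Hist n) (v : Fin (n + 1)) (k : Fin n) :
    refP δ (snocH a v) k.castSucc = refP δ a k := by
  unfold refP
  simp only [target_snocH_castSucc, Fin.castSucc_lt_castSucc_iff, Fin.val_castSucc]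
  rw [deg_snocH_castSucc a v (by omega)]

lemma refw_snoc_castSucc {n : ℕ} (δ : ℝ) (a : Hist n) (w : Fin n) :
    refw δ (snocH a w.castSucc) = refw δ a * ((deg a n w : ℝ) / (2 * n + 1 + δ)) := by
  unfold refw
  rw [Fin.prod_univ_castSucc]
  simp only [refP_snoc_castSucc]
  congr 1
  unfold refP
  have h1 : w.castSucc < Fin.last n := Fin.castSucc_lt_last w
  simp [h1, deg_snocH_castSucc]

lemma refw_snoc_last {n : ℕ} (δ : ℝ) (a : Hist n) :
    refw δ (snocH a (Fin.last n)) = refw δ a * ((1 + δ) / (2 * n + 1 + δ)) := by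
  unfold refw
  rw [Fin.prod_univ_castSucc]
  simp only [refP_snoc_castSucc]
  congr 1
  unfold refP
  simp

lemma refw_nonneg {n : ℕ} {δ : ℝ} (hδ : 0 < δ) (a : Hist n) : 0 ≤ refw δ a := by
  unfold refw
  apply Finset.prod_nonneg
  intro k _
  unfold refP
  split_ifs <;> positivity

lemma refw_sum {δ : ℝ} (hδ : 0 < δ) (n : ℕ) : ∑ a : Hist n, refw δ a = 1 := by
  induction n with
  | zero => simp [refw]
  | succ n ih =>
    rw [sum_hist_succ]
    rw [← ih]
    apply Finset.sum_congr rfl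
    intro a _
    rw [Fin.sum_univ_castSucc]
    simp only [refw_snoc_castSucc, refw_snoc_last]
    rw [← Finset.mul_sum, ← Finset.sum_div, ← mul_add]
    have h : ∑ v : Fin n, (deg a n v : ℝ) = 2 * n := by
      have := deg_sum a
      exact_mod_cast this
    rw [h]
    have : (2 * (n : ℝ) + 1 + δ) ≠ 0 := by positivity
    field_simp
    ring

lemma deg_pos {n : ℕ} (a : Hist n) {m : ℕ} (v : Fin n) (hv : v.val < m) : 0 < deg a m v := by
  unfold deg
  apply Finset.sum_pos'
  · intro k _; exact Nat.zero_le _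
  · exact ⟨v, Finset.mem_univ _, by simp [hv]⟩

lemma refw_pos {n : ℕ} {δ : ℝ} (hδ : 0 < δ) (a : Hist n) : 0 < refw δ a := by
  unfold refw
  apply Finset.prod_pos
  intro k _
  unfold refP
  split_ifs with h
  · have : (0 : ℝ) < (deg a k.val (target a k) : ℝ) := by
      exact_mod_cast deg_pos a _ h
    positivity
  · positivity

section

variable {K : ℕ} {p φ : Fin K → ℝ} {δ : ℝ}

/-- The balanced family of parameters. -/
def balParam (p φ : Fin K → ℝ) (δ : ℝ) : Param K := ⟨p, fun i j => 1 + δ * φ i * φ j⟩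

lemma stepZ_bal {n : ℕ} (a : Hist n) (l : Fin n → Fin K) (j : Fin K) :
    stepZ (balParam p φ δ) a l j =
      (2 * n + 1 + δ) + eps φ δ (lin a (fun v => φ (l v))) j := by
  have h : ∑ v : Fin n, (deg a n v : ℝ) = 2 * n := by
    have := deg_sum a
    exact_mod_cast this
  unfold stepZ lin eps
  simp only [balParam]
  have h2 : ∀ v : Fin n, (1 + δ * φ j * φ (l v)) * (deg a n v : ℝ) =
      (deg a n v : ℝ) + δ * φ j * ((deg a n v : ℝ) * φ (l v)) := by
    intro v; ring
  simp only [h2, Finset.sum_add_distrib, ← Finset.mul_sum, h]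
  ring

/-- joint weight of two label vectors relative to the reference law -/
noncomputable def UU (θ : Param K) (δ : ℝ) {n : ℕ} (a : Hist n) (l l' : Fin n → Fin K) : ℝ :=
  wt θ a l * wt θ a l' / refw δ a

lemma UU_snoc_castSucc (hδ : 0 < δ) {n : ℕ} (hN : ∀ (a : Hist n) (l : Fin n → Fin K) (j : Fin K),
      stepZ (balParam p φ δ) a l j ≠ 0) (a : Hist n) (l l' : Fin n → Fin K) (j j' : Fin K)
    (w : Fin n) :
    UU (balParam p φ δ) δ (snocH a w.castSucc) (snocL l j) (snocL l' j') =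
      UU (balParam p φ δ) δ a l l' * om p φ δ (2 * n + 1 + δ) (fun v => (deg a n v : ℝ))
        (fun v => φ (l v)) (fun v => φ (l' v)) (some w, j, j') := by
  unfold UU
  rw [wt_snoc, wt_snoc, refw_snoc_castSucc, stepP_castSucc, stepP_castSucc]
  simp only [om, uu]
  have e1 := stepZ_bal (p := p) (φ := φ) (δ := δ) a l j
  have e2 := stepZ_bal (p := p) (φ := φ) (δ := δ) a l' j'
  have n1 := hN a l j
  have n2 := hN a l' j'
  rw [e1] at n1
  rw [e2] at n2
  rw [e1, e2]
  simp only [balParam]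
  change _ = _ * ((deg a n w : ℝ) / (2 * n + 1 + δ) *
    (p j * ((1 + δ * φ j * φ (l w)) * ((2 * n + 1 + δ) /
      (2 * n + 1 + δ + eps φ δ (lin a (fun v => φ (l v))) j)))) *
    (p j' * ((1 + δ * φ j' * φ (l' w)) * ((2 * n + 1 + δ) /
      (2 * n + 1 + δ + eps φ δ (lin a (fun v => φ (l' v))) j')))))
  have hN0 : (2 * (n : ℝ) + 1 + δ) ≠ 0 := by positivity
  have hr := (refw_pos hδ a).ne'
  have hd : ((deg a n w : ℕ) : ℝ) ≠ 0 := by
    have := deg_pos a (m := n) w w.isLt
    positivity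
  field_simp

lemma UU_snoc_last (hδ : 0 < δ) {n : ℕ} (hN : ∀ (a : Hist n) (l : Fin n → Fin K) (j : Fin K),
      stepZ (balParam p φ δ) a l j ≠ 0) (a : Hist n) (l l' : Fin n → Fin K) (j j' : Fin K) :
    UU (balParam p φ δ) δ (snocH a (Fin.last n)) (snocL l j) (snocL l' j') =
      UU (balParam p φ δ) δ a l l' * om p φ δ (2 * n + 1 + δ) (fun v => (deg a n v : ℝ))
        (fun v => φ (l v)) (fun v => φ (l' v)) (none, j, j') := by
  unfold UU
  rw [wt_snoc, wt_snoc, refw_snoc_last, stepP_last, stepP_last]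
  simp only [om, uu]
  have e1 := stepZ_bal (p := p) (φ := φ) (δ := δ) a l j
  have e2 := stepZ_bal (p := p) (φ := φ) (δ := δ) a l' j'
  have n1 := hN a l j
  have n2 := hN a l' j'
  rw [e1] at n1
  rw [e2] at n2
  rw [e1, e2]
  simp only [balParam]
  change _ = _ * ((1 + δ) / (2 * n + 1 + δ) *
    (p j * ((1 + δ * φ j ^ 2) / (1 + δ) * ((2 * n + 1 + δ) /
      (2 * n + 1 + δ + eps φ δ (lin a (fun v => φ (l v))) j)))) *
    (p j' * ((1 + δ * φ j' ^ 2) / (1 + δ) * ((2 * n + 1 + δ) /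
      (2 * n + 1 + δ + eps φ δ (lin a (fun v => φ (l' v))) j')))))
  have hN0 : (2 * (n : ℝ) + 1 + δ) ≠ 0 := by positivity
  have hr := (refw_pos hδ a).ne'
  have hd : (1 + δ) ≠ 0 := by positivity
  field_simp

lemma stepZ_ne (hb : Bal p φ δ) {n : ℕ} (a : Hist n) (l : Fin n → Fin K) (j : Fin K) :
    stepZ (balParam p φ δ) a l j ≠ 0 := by
  have hd := hb.d0
  rw [stepZ_bal]
  have hN : (1 : ℝ) ≤ 2 * n + 1 + δ := by
    have : (0 : ℝ) ≤ n := Nat.cast_nonneg n
    linarith
  have h : ∑ v : Fin n, (deg a n v : ℝ) ≤ 2 * n + 1 + δ := by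
    have := deg_sum a
    have h2 : ∑ v : Fin n, (deg a n v : ℝ) = 2 * n := by exact_mod_cast this
    rw [h2]; linarith
  have hM : |lin a (fun v => φ (l v))| ≤ 2 * (2 * n + 1 + δ) :=
    mag_le (fun v => Nat.cast_nonneg _) h (by linarith) (by norm_num) (fun v => hb.bd _)
  have := den_ge hb hN hM j
  have h3 : 0 < (2 * (n : ℝ) + 1 + δ) * 0.99 := by positivity
  linarith

lemma st_hist (hb : Bal p φ δ) {n : ℕ} (a : Hist n) (l l' : Fin n → Fin K) :
    St δ (2 * n + 1 + δ) (fun v => (deg a n v : ℝ)) (fun v => φ (l v)) (fun v => φ (l' v)) := by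
  have hd := hb.d0
  refine ⟨fun v => Nat.cast_nonneg _, ?_, fun v => hb.bd _, fun v => hb.bd _, ?_⟩
  · have := deg_sum a
    have h2 : ∑ v : Fin n, (deg a n v : ℝ) = 2 * n := by exact_mod_cast this
    rw [h2]; ring
  · have : (0 : ℝ) ≤ n := Nat.cast_nonneg n
    linarith

/-- weighted sums of a functional -/
noncomputable def SS (θ : Param K) (δ : ℝ) (n : ℕ)
    (V : Hist n → (Fin n → Fin K) → (Fin n → Fin K) → ℝ) : ℝ :=
  ∑ a : Hist n, ∑ l : Fin n → Fin K, ∑ l' : Fin n → Fin K, UU θ δ a l l' * V a l l'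

lemma SS_succ (hb : Bal p φ δ) (n : ℕ)
    (V : Hist (n + 1) → (Fin (n + 1) → Fin K) → (Fin (n + 1) → Fin K) → ℝ)
    (G : Hist n → (Fin n → Fin K) → (Fin n → Fin K) → Option (Fin n) × Fin K × Fin K → ℝ)
    (h1 : ∀ a l l' j j' w, V (snocH a (Fin.castSucc w)) (snocL l j) (snocL l' j') =
      G a l l' (some w, j, j'))
    (h2 : ∀ a l l' j j', V (snocH a (Fin.last n)) (snocL l j) (snocL l' j') =
      G a l l' (none, j, j')) :
    SS (balParam p φ δ) δ (n + 1) V = SS (balParam p φ δ) δ n (fun a l l' =>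
      ∑ o, om p φ δ (2 * n + 1 + δ) (fun v => (deg a n v : ℝ)) (fun v => φ (l v))
        (fun v => φ (l' v)) o * G a l l' o) := by
  unfold SS
  rw [sum_hist_succ]
  apply Finset.sum_congr rfl
  intro a _
  simp only [sum_lab_succ]
  rw [Finset.sum_comm]
  apply Finset.sum_congr rfl
  intro l _
  have h3 : ∀ v : Fin (n + 1), (∑ j : Fin K, ∑ l' : Fin n → Fin K, ∑ j' : Fin K,
      UU (balParam p φ δ) δ (snocH a v) (snocL l j) (snocL l' j') *
        V (snocH a v) (snocL l j) (snocL l' j')) =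
      ∑ l' : Fin n → Fin K, ∑ j : Fin K, ∑ j' : Fin K,
      UU (balParam p φ δ) δ (snocH a v) (snocL l j) (snocL l' j') *
        V (snocH a v) (snocL l j) (snocL l' j') := by
    intro v
    rw [Finset.sum_comm]
  simp only [h3]
  rw [Finset.sum_comm]
  apply Finset.sum_congr rfl
  intro l' _
  rw [Fin.sum_univ_castSucc]
  simp only [UU_snoc_castSucc hb.d0 (fun a l j => stepZ_ne hb a l j), h1,
    UU_snoc_last hb.d0 (fun a l j => stepZ_ne hb a l j), h2]
  rw [Fintype.sum_prod_type, Fintype.sum_option, add_comm]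
  simp only [Fintype.sum_prod_type]
  simp only [mul_add, Finset.mul_sum, mul_assoc]

lemma wt_nonneg (hb : Bal p φ δ) {n : ℕ} (a : Hist n) (l : Fin n → Fin K) :
    0 ≤ wt (balParam p φ δ) a l := by
  have hd := hb.d0
  have hd1 := hb.d1
  have hg : ∀ i j : Fin K, 0 ≤ 1 + δ * φ i * φ j := by
    intro i j
    have : |φ i * φ j| ≤ 4 := by
      rw [abs_mul]
      calc |φ i| * |φ j| ≤ 2 * 2 := mul_le_mul (hb.bd i) (hb.bd j) (abs_nonneg _) (by norm_num)
        _ = 4 := by norm_num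
    have := (abs_le.mp this).1
    nlinarith
  have hZ : ∀ k, 0 ≤ normZ (balParam p φ δ) a l k := by
    intro k
    unfold normZ
    apply add_nonneg _ (hg _ _)
    apply Finset.sum_nonneg
    intro v _
    split_ifs
    · exact mul_nonneg (hg _ _) (Nat.cast_nonneg _)
    · exact le_refl 0
  unfold wt
  apply Finset.prod_nonneg
  intro k _
  apply mul_nonneg (hb.p0 _)
  unfold linkProb
  split_ifs
  · exact div_nonneg (mul_nonneg (hg _ _) (Nat.cast_nonneg _)) (hZ k)
  · exact div_nonneg (hg _ _) (hZ k)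

lemma UU_nonneg (hb : Bal p φ δ) {n : ℕ} (a : Hist n) (l l' : Fin n → Fin K) :
    0 ≤ UU (balParam p φ δ) δ a l l' := by
  unfold UU
  exact div_nonneg (mul_nonneg (wt_nonneg hb a l) (wt_nonneg hb a l')) (refw_nonneg hb.d0 a)

lemma SS_mono (hb : Bal p φ δ) {n : ℕ}
    {V W : Hist n → (Fin n → Fin K) → (Fin n → Fin K) → ℝ}
    (h : ∀ a l l', V a l l' ≤ W a l l') :
    SS (balParam p φ δ) δ n V ≤ SS (balParam p φ δ) δ n W := by
  unfold SS
  apply Finset.sum_le_sum; intro a _
  apply Finset.sum_le_sum; intro l _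
  apply Finset.sum_le_sum; intro l' _
  exact mul_le_mul_of_nonneg_left (h a l l') (UU_nonneg hb a l l')

lemma SS_const (c : ℝ) (θ : Param K) (n : ℕ) :
    SS θ δ n (fun _ _ _ => c) = c * SS θ δ n (fun _ _ _ => 1) := by
  unfold SS
  simp only [Finset.mul_sum]
  apply Finset.sum_congr rfl; intro a _
  apply Finset.sum_congr rfl; intro l _
  apply Finset.sum_congr rfl; intro l' _
  ring

lemma SS_zero (θ : Param K) : SS θ δ 0 (fun _ _ _ => 1) = 1 := by
  unfold SS UU wt refw
  simp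

lemma SS_one_succ (hb : Bal p φ δ) (n : ℕ) :
    SS (balParam p φ δ) δ (n + 1) (fun _ _ _ => 1) ≤
      (1 + 1 / 10 ^ 7) * SS (balParam p φ δ) δ n (fun _ _ _ => 1) := by
  rw [SS_succ hb n (fun _ _ _ => 1) (fun _ _ _ _ => 1) (fun _ _ _ _ _ _ => rfl)
    (fun _ _ _ _ _ => rfl), ← SS_const]
  apply SS_mono hb
  intro a l l'
  simp only [mul_one]
  have := (abs_le.mp (sum_om_crude hb (st_hist hb a l l'))).2
  linarith

lemma SS_one_le (hb : Bal p φ δ) (n : ℕ) :
    SS (balParam p φ δ) δ n (fun _ _ _ => 1) ≤ (1 + 1 / 10 ^ 7) ^ n := by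
  induction n with
  | zero => rw [SS_zero]; simp
  | succ n ih =>
    calc _ ≤ _ := SS_one_succ hb n
      _ ≤ (1 + 1 / 10 ^ 7) * (1 + 1 / 10 ^ 7) ^ n := by gcongr
      _ = _ := by ring

/-- the potential -/
noncomputable def pot (φ : Fin K → ℝ) (δ : ℝ) {n : ℕ} (a : Hist n) (l l' : Fin n → Fin K) : ℝ :=
  Real.exp (lamc * WW (lin a (fun v => φ (l v))) (lin a (fun v => φ (l' v)))
    (lin a (fun v => φ (l v) * φ (l' v))) (2 * n + 1 + δ))

lemma SS_pot_succ (hb : Bal p φ δ) {n : ℕ} (hn : 2000 ≤ n) :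
    SS (balParam p φ δ) δ (n + 1) (pot φ δ) ≤ SS (balParam p φ δ) δ n (pot φ δ) := by
  have hd := hb.d0
  rw [SS_succ hb n (pot φ δ) (fun a l l' o => Real.exp (lamc * WW
    (lin a (fun v => φ (l v)) + inc1 φ (fun v => φ (l v)) o)
    (lin a (fun v => φ (l' v)) + inc2 φ (fun v => φ (l' v)) o)
    (lin a (fun v => φ (l v) * φ (l' v)) + inc3 φ (fun v => φ (l v)) (fun v => φ (l' v)) o)
    ((2 * n + 1 + δ) + 2)))]
  · apply SS_mono hb
    intro a l l'
    have hN4 : (4000 : ℝ) ≤ 2 * n + 1 + δ := by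
      have : (2000 : ℝ) ≤ n := by exact_mod_cast hn
      linarith
    exact step_main hb (st_hist hb a l l') hN4
  · intro a l l' j j' w
    unfold pot
    rw [lin_snoc_castSucc a w (fun v => φ (l v)) _ (φ j) (fun v => by simp) (by simp),
      lin_snoc_castSucc a w (fun v => φ (l' v)) _ (φ j') (fun v => by simp) (by simp),
      lin_snoc_castSucc a w (fun v => φ (l v) * φ (l' v)) _ (φ j * φ j') (fun v => by simp)
        (by simp)]
    simp only [inc1, inc2, inc3]
    congr 3
    push_cast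
    ring
  · intro a l l' j j'
    unfold pot
    rw [lin_snoc_last a (fun v => φ (l v)) _ (φ j) (fun v => by simp) (by simp),
      lin_snoc_last a (fun v => φ (l' v)) _ (φ j') (fun v => by simp) (by simp),
      lin_snoc_last a (fun v => φ (l v) * φ (l' v)) _ (φ j * φ j') (fun v => by simp)
        (by simp)]
    simp only [inc1, inc2, inc3]
    congr 3
    push_cast
    ring

lemma pot_ge_one (hδ : 0 < δ) {n : ℕ} (a : Hist n) (l l' : Fin n → Fin K) :
    1 ≤ pot φ δ a l l' := by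
  unfold pot
  apply Real.one_le_exp
  unfold lamc WW ww
  positivity

lemma pot_2000_le (hb : Bal p φ δ) (a : Hist 2000) (l l' : Fin 2000 → Fin K) :
    pot φ δ a l l' ≤ 1.06 := by
  have hd := hb.d0
  have hd1 := hb.d1
  unfold pot
  have hs := st_hist hb a l l'
  push_cast at hs ⊢
  have hN4 : (4000 : ℝ) ≤ 2 * 2000 + 1 + δ := by linarith
  have h1 : WW (lin a (fun v => φ (l v))) (lin a (fun v => φ (l' v)))
      (lin a (fun v => φ (l v) * φ (l' v))) (2 * 2000 + 1 + δ) ≤ 125 * (2 * 2000 + 1 + δ) := by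
    unfold WW
    rw [div_le_iff₀ (by positivity)]
    have hw5 := ww_le hN4 (hs.Mf hb) (hs.Mg hb) (hs.C hb)
    have hw0 := ww_ge (X1 := mag (fun v => (deg a 2000 v : ℝ)) (fun v => φ (l v)))
      (X2 := mag (fun v => (deg a 2000 v : ℝ)) (fun v => φ (l' v)))
      (X3 := mag (fun v => (deg a 2000 v : ℝ)) (fun v => φ (l v) * φ (l' v))) hN4
    calc _ ≤ (5 * (2 * 2000 + 1 + δ)) ^ 3 := pow_le_pow_left₀ (by linarith) hw5 3
      _ = _ := by ring
  have h2 : lamc * WW (lin a (fun v => φ (l v))) (lin a (fun v => φ (l' v)))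
      (lin a (fun v => φ (l v) * φ (l' v))) (2 * 2000 + 1 + δ) ≤ 0.051 := by
    calc _ ≤ lamc * (125 * (2 * 2000 + 1 + δ)) :=
          mul_le_mul_of_nonneg_left h1 (by unfold lamc; norm_num)
      _ ≤ lamc * (125 * (2 * 2000 + 1 + 1 / 1000)) := by
          apply mul_le_mul_of_nonneg_left _ (by unfold lamc; norm_num)
          linarith
      _ ≤ 0.051 := by unfold lamc; norm_num
  have h4 := Real.abs_exp_sub_one_sub_id_le (x := 0.051) (by norm_num)
  have h5 := (abs_le.mp h4).2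
  calc _ ≤ Real.exp 0.051 := Real.exp_le_exp.mpr h2
    _ ≤ 1.06 := by linarith

theorem SS_bound (hb : Bal p φ δ) (n : ℕ) :
    SS (balParam p φ δ) δ n (fun _ _ _ => 1) ≤ 1.1 := by
  have hsmall : ∀ n : ℕ, n ≤ 2000 → SS (balParam p φ δ) δ n (fun _ _ _ => 1) ≤ 1.01 := by
    intro n hn
    refine (SS_one_le hb n).trans ?_
    calc (1 + 1 / 10 ^ 7 : ℝ) ^ n ≤ (1 + 1 / 10 ^ 7) ^ 2000 :=
          pow_le_pow_right₀ (by norm_num) hn
      _ ≤ (Real.exp (1 / 10 ^ 7)) ^ 2000 := by
          apply pow_le_pow_left₀ (by norm_num)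
          have := Real.add_one_le_exp (1 / 10 ^ 7 : ℝ)
          linarith
      _ = Real.exp (2000 * (1 / 10 ^ 7)) := by
          rw [← Real.exp_nat_mul]; norm_num
      _ ≤ 1.01 := by
          have h4 := Real.abs_exp_sub_one_sub_id_le (x := 2000 * (1 / 10 ^ 7)) (by
            rw [abs_of_pos (by norm_num)]; norm_num)
          have h5 := (abs_le.mp h4).2
          norm_num at h5 ⊢
          linarith
  have hpot : ∀ n : ℕ, 2000 ≤ n → SS (balParam p φ δ) δ n (pot φ δ) ≤ 1.1 := by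
    intro n hn
    induction n, hn using Nat.le_induction with
    | base =>
      calc SS (balParam p φ δ) δ 2000 (pot φ δ)
          ≤ SS (balParam p φ δ) δ 2000 (fun _ _ _ => 1.06) :=
            SS_mono hb (fun a l l' => pot_2000_le hb a l l')
        _ = 1.06 * SS (balParam p φ δ) δ 2000 (fun _ _ _ => 1) := SS_const _ _ _
        _ ≤ 1.06 * 1.01 := by gcongr; exact hsmall 2000 le_rfl
        _ ≤ 1.1 := by norm_num
    | succ n hn ih => exact (SS_pot_succ hb hn).trans ih
  rcases le_total n 2000 with h | h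
  · exact (hsmall n h).trans (by norm_num)
  · exact (SS_mono hb (fun a l l' => pot_ge_one hb.d0 a l l')).trans (hpot n h)

/-- The second moment of the likelihood ratio is at most `1.1`, uniformly in `n`. -/
theorem second_moment (hb : Bal p φ δ) (n : ℕ) :
    ∑ a : Hist n, law (balParam p φ δ) a ^ 2 / refw δ a ≤ 1.1 := by
  have h : ∑ a : Hist n, law (balParam p φ δ) a ^ 2 / refw δ a =
      SS (balParam p φ δ) δ n (fun _ _ _ => 1) := by
    unfold SS UU
    apply Finset.sum_congr rfl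
    intro a _
    rw [law_eq, sq, Finset.sum_mul_sum, Finset.sum_div]
    apply Finset.sum_congr rfl
    intro l _
    rw [Finset.sum_div]
    apply Finset.sum_congr rfl
    intro l' _
    ring
  rw [h]
  exact SS_bound hb n

end

end Pool.Agent.H973.Hpam
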