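import Pool.Agent.H973.Hpam.Rec

/-! # The law of the first three steps for two labels -/

namespace Pool.Agent.H973.Hpam

open Finset

/-- the history of length one -/
def h1 : Hist 1 := snocH (n := 0) (fun k => k.elim0) 0

/-- the histories of length two -/
def h2 (v : Fin 2) : Hist 2 := snocH h1 v

/-- the histories of length three -/
def h3 (v : Fin 2) (w : Fin 3) : Hist 3 := snocH (h2 v) w

/-- the two-label parameter with `γ = ((1+X) b, b; b, (1+Y) b)` -/
def par2 (p b X Y : ℝ) : Param 2 :=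
  ⟨![p, 1 - p], ![![(1 + X) * b, b], ![b, (1 + Y) * b]]⟩

lemma deg_h1 : deg h1 1 0 = 2 := by
  unfold h1
  have := deg_snocH_succ_last (n := 0) (fun k => k.elim0) 0
  simpa using this

lemma deg_h2_zero (v : Fin 2) : deg (h2 v) 2 0 = 2 + if v = 0 then 1 else 0 := by
  unfold h2
  have := deg_snocH_succ_castSucc (n := 1) h1 v 0
  rw [deg_h1] at this
  simpa using this

lemma deg_h2_one (v : Fin 2) : deg (h2 v) 2 1 = 1 + if v = 1 then 1 else 0 := by
  unfold h2
  have := deg_snocH_succ_last (n := 1) h1 v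
  simpa using this

lemma wt_h1 (θ : Param 2) (l : Fin 0 → Fin 2) (x : Fin 2) (hx : θ.gam x x ≠ 0) :
    wt θ h1 (snocL l x) = θ.pi x := by
  unfold h1
  rw [wt_snoc]
  have : stepP θ (n := 0) (fun k => k.elim0) l x 0 = 1 := by
    have h := stepP_last θ (n := 0) (fun k => k.elim0) l x
    have h' : stepZ θ (n := 0) (fun k => k.elim0) l x = θ.gam x x := by
      unfold stepZ; simp
    rw [h'] at h
    rw [div_self hx] at h
    exact h
  rw [this]
  unfold wt
  simp

lemma stepZ_h1 (θ : Param 2) (l : Fin 0 → Fin 2) (x y : Fin 2) :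
    stepZ θ h1 (snocL l x) y = θ.gam y x * 2 + θ.gam y y := by
  unfold stepZ
  simp [deg_h1, snocL, Fin.snoc]

lemma wt_h2_zero (θ : Param 2) (l : Fin 0 → Fin 2) (x y : Fin 2) (hx : θ.gam x x ≠ 0) :
    wt θ (h2 0) (snocL (snocL l x) y) =
      θ.pi x * (θ.pi y * (θ.gam y x * 2 / (θ.gam y x * 2 + θ.gam y y))) := by
  unfold h2
  rw [wt_snoc, wt_h1 θ l x hx]
  have h := stepP_castSucc θ h1 (snocL l x) y 0
  rw [stepZ_h1, deg_h1] at h
  have h0 : (0 : Fin 2) = (Fin.castSucc (0 : Fin 1)) := rfl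
  rw [h0, h]
  simp [snocL, Fin.snoc]

lemma wt_h2_one (θ : Param 2) (l : Fin 0 → Fin 2) (x y : Fin 2) (hx : θ.gam x x ≠ 0) :
    wt θ (h2 1) (snocL (snocL l x) y) =
      θ.pi x * (θ.pi y * (θ.gam y y / (θ.gam y x * 2 + θ.gam y y))) := by
  unfold h2
  rw [wt_snoc, wt_h1 θ l x hx]
  have h := stepP_last θ h1 (snocL l x) y
  rw [stepZ_h1] at h
  have h0 : (1 : Fin 2) = (Fin.last 1) := rfl
  rw [h0, h]

lemma stepZ_h2 (θ : Param 2) (l : Fin 0 → Fin 2) (x y z : Fin 2) (v : Fin 2) :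
    stepZ θ (h2 v) (snocL (snocL l x) y) z =
      θ.gam z x * (2 + if v = 0 then 1 else 0) + θ.gam z y * (1 + if v = 1 then 1 else 0) +
        θ.gam z z := by
  unfold stepZ
  rw [Fin.sum_univ_two, deg_h2_zero, deg_h2_one]
  have e1 : snocL (snocL l x) y 0 = x := by
    have : (0 : Fin 2) = Fin.castSucc (Fin.last 0) := rfl
    rw [this, snocL_castSucc, snocL_last]
  have e2 : snocL (snocL l x) y 1 = y := by
    have : (1 : Fin 2) = Fin.last 1 := rfl
    rw [this, snocL_last]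
  rw [e1, e2]
  push_cast
  rfl

lemma stepP_h2_zero (θ : Param 2) (l : Fin 0 → Fin 2) (x y z : Fin 2) (v : Fin 2) :
    stepP θ (h2 v) (snocL (snocL l x) y) z 0 =
      θ.gam z x * (2 + if v = 0 then 1 else 0) /
      (θ.gam z x * (2 + if v = 0 then 1 else 0) + θ.gam z y * (1 + if v = 1 then 1 else 0) +
        θ.gam z z) := by
  have h := stepP_castSucc θ (h2 v) (snocL (snocL l x) y) z 0
  rw [stepZ_h2, deg_h2_zero] at h
  have e1 : snocL (snocL l x) y 0 = x := by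
    have : (0 : Fin 2) = Fin.castSucc (Fin.last 0) := rfl
    rw [this, snocL_castSucc, snocL_last]
  rw [e1] at h
  push_cast at h
  exact h

lemma stepP_h2_one (θ : Param 2) (l : Fin 0 → Fin 2) (x y z : Fin 2) (v : Fin 2) :
    stepP θ (h2 v) (snocL (snocL l x) y) z 1 =
      θ.gam z y * (1 + if v = 1 then 1 else 0) /
      (θ.gam z x * (2 + if v = 0 then 1 else 0) + θ.gam z y * (1 + if v = 1 then 1 else 0) +
        θ.gam z z) := by
  have h := stepP_castSucc θ (h2 v) (snocL (snocL l x) y) z 1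
  rw [stepZ_h2, deg_h2_one] at h
  have e2 : snocL (snocL l x) y 1 = y := by
    have : (1 : Fin 2) = Fin.last 1 := rfl
    rw [this, snocL_last]
  rw [e2] at h
  push_cast at h
  exact h

lemma stepP_h2_two (θ : Param 2) (l : Fin 0 → Fin 2) (x y z : Fin 2) (v : Fin 2) :
    stepP θ (h2 v) (snocL (snocL l x) y) z 2 =
      θ.gam z z /
      (θ.gam z x * (2 + if v = 0 then 1 else 0) + θ.gam z y * (1 + if v = 1 then 1 else 0) +
        θ.gam z z) := by
  have h := stepP_last θ (h2 v) (snocL (snocL l x) y) z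
  rw [stepZ_h2] at h
  exact h

lemma univ_fin0 : (Finset.univ : Finset (Fin 0 → Fin 2)) = {fun k => k.elim0} := by
  ext e
  simp only [Finset.mem_univ, Finset.mem_singleton, true_iff]
  exact Subsingleton.elim _ _

lemma law_h2 (θ : Param 2) (v : Fin 2) :
    law θ (h2 v) = ∑ x, ∑ y, wt θ (h2 v) (snocL (snocL (fun k : Fin 0 => k.elim0) x) y) := by
  rw [law_eq, sum_lab_succ, sum_lab_succ]
  rw [univ_fin0, Finset.sum_singleton]

lemma law_h3 (θ : Param 2) (v : Fin 2) (w : Fin 3) :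
    law θ (h3 v w) = ∑ x, ∑ y, ∑ z, wt θ (h2 v) (snocL (snocL (fun k : Fin 0 => k.elim0) x) y) *
      (θ.pi z * stepP θ (h2 v) (snocL (snocL (fun k : Fin 0 => k.elim0) x) y) z w) := by
  rw [law_eq, sum_lab_succ, sum_lab_succ, sum_lab_succ]
  rw [univ_fin0, Finset.sum_singleton]
  unfold h3
  simp only [wt_snoc]

section

variable {p b X Y : ℝ}

/-- abbreviations: the linear forms occurring as denominators -/
lemma law_two_loop (hb : 0 < b) (hX : 0 < 1 + X) (hY : 0 < 1 + Y) :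
    law (par2 p b X Y) (h2 1) = 1 / 3 + 2 / 3 * (p * (1 - p) *
      (X / (X + 3) + Y / (Y + 3))) := by
  rw [law_h2]
  simp only [Fin.sum_univ_two]
  rw [wt_h2_one, wt_h2_one, wt_h2_one, wt_h2_one]
  · simp only [par2, Matrix.cons_val_zero, Matrix.cons_val_one]
    have e1 : X + 3 ≠ 0 := by linarith
    have e2 : Y + 3 ≠ 0 := by linarith
    have e3 : b * 2 + (1 + Y) * b = b * (Y + 3) := by ring
    have e4 : b * 2 + (1 + X) * b = b * (X + 3) := by ring
    have e5 : (1 + X) * b * 2 + (1 + X) * b = b * (3 * (1 + X)) := by ring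
    have e6 : (1 + Y) * b * 2 + (1 + Y) * b = b * (3 * (1 + Y)) := by ring
    rw [e3, e4, e5, e6]
    have hX' := hX.ne'
    have hY' := hY.ne'
    field_simp
    ring
  all_goals simp only [par2, Matrix.cons_val_zero, Matrix.cons_val_one]; positivity

lemma law_three_diff (hb : 0 < b) (hX : 0 < 1 + X) (hY : 0 < 1 + Y) :
    law (par2 p b X Y) (h3 1 0) - law (par2 p b X Y) (h3 1 1) =
      p * (1 - p) * (4 * (Y - X) / ((X + 3) * (Y + 3))) *
        (p * X / (3 * X + 5) - (1 - p) * Y / (3 * Y + 5)) := by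
  have g0 : (par2 p b X Y).gam 0 0 ≠ 0 := (mul_pos hX hb).ne'
  have g1 : (par2 p b X Y).gam 1 1 ≠ 0 := (mul_pos hY hb).ne'
  rw [law_h3, law_h3]
  simp only [Fin.sum_univ_two, wt_h2_one _ _ _ _ g0, wt_h2_one _ _ _ _ g1, stepP_h2_zero,
    stepP_h2_one]
  simp only [par2, Matrix.cons_val_zero, Matrix.cons_val_one, one_ne_zero, if_false, if_true,
    add_zero]
  have e1 : X + 3 ≠ 0 := by linarith
  have e2 : Y + 3 ≠ 0 := by linarith
  have e1' : 3 * X + 5 ≠ 0 := by linarith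
  have e2' : 3 * Y + 5 ≠ 0 := by linarith
  have e1'' : X + 5 ≠ 0 := by linarith
  have e2'' : Y + 5 ≠ 0 := by linarith
  have e3 : b * 2 + (1 + Y) * b = b * (Y + 3) := by ring
  have e4 : b * 2 + (1 + X) * b = b * (X + 3) := by ring
  have e5 : (1 + X) * b * 2 + (1 + X) * b = b * (3 * (1 + X)) := by ring
  have e6 : (1 + Y) * b * 2 + (1 + Y) * b = b * (3 * (1 + Y)) := by ring
  have f1 : (1 + X) * b * 2 + (1 + X) * b * (1 + 1) + (1 + X) * b = b * (5 * (1 + X)) := by ring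
  have f2 : b * 2 + b * (1 + 1) + (1 + Y) * b = b * (Y + 5) := by ring
  have f3 : (1 + X) * b * 2 + b * (1 + 1) + (1 + X) * b = b * (3 * X + 5) := by ring
  have f4 : b * 2 + (1 + Y) * b * (1 + 1) + (1 + Y) * b = b * (3 * Y + 5) := by ring
  have f5 : b * 2 + (1 + X) * b * (1 + 1) + (1 + X) * b = b * (3 * X + 5) := by ring
  have f6 : (1 + Y) * b * 2 + b * (1 + 1) + (1 + Y) * b = b * (3 * Y + 5) := by ring
  have f7 : b * 2 + b * (1 + 1) + (1 + X) * b = b * (X + 5) := by ring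
  have f8 : (1 + Y) * b * 2 + (1 + Y) * b * (1 + 1) + (1 + Y) * b = b * (5 * (1 + Y)) := by ring
  rw [e3, e4, e5, e6, f1, f2, f3, f4, f5, f6, f7, f8]
  have hX' := hX.ne'
  have hY' := hY.ne'
  field_simp
  ring

lemma law_three_loop (hb : 0 < b) (hX : 0 < 1 + X) (hY : 0 < 1 + Y) :
    law (par2 p b X Y) (h3 1 2) = 1 / 15 + p * (1 - p) * (2 / 15 * (X / (X + 3) + Y / (Y + 3)) +
      4 / 15 * (p * Y / (Y + 5) + (1 - p) * X / (X + 5)) +
      4 / 15 * (1 + (X / (X + 3) + Y / (Y + 3))) *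
        (p * X / (3 * X + 5) + (1 - p) * Y / (3 * Y + 5))) := by
  have g0 : (par2 p b X Y).gam 0 0 ≠ 0 := (mul_pos hX hb).ne'
  have g1 : (par2 p b X Y).gam 1 1 ≠ 0 := (mul_pos hY hb).ne'
  rw [law_h3]
  simp only [Fin.sum_univ_two, wt_h2_one _ _ _ _ g0, wt_h2_one _ _ _ _ g1, stepP_h2_two]
  simp only [par2, Matrix.cons_val_zero, Matrix.cons_val_one, one_ne_zero, if_false, if_true,
    add_zero]
  have e1 : X + 3 ≠ 0 := by linarith
  have e2 : Y + 3 ≠ 0 := by linarith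
  have e1' : 3 * X + 5 ≠ 0 := by linarith
  have e2' : 3 * Y + 5 ≠ 0 := by linarith
  have e1'' : X + 5 ≠ 0 := by linarith
  have e2'' : Y + 5 ≠ 0 := by linarith
  have e3 : b * 2 + (1 + Y) * b = b * (Y + 3) := by ring
  have e4 : b * 2 + (1 + X) * b = b * (X + 3) := by ring
  have e5 : (1 + X) * b * 2 + (1 + X) * b = b * (3 * (1 + X)) := by ring
  have e6 : (1 + Y) * b * 2 + (1 + Y) * b = b * (3 * (1 + Y)) := by ring
  have f1 : (1 + X) * b * 2 + (1 + X) * b * (1 + 1) + (1 + X) * b = b * (5 * (1 + X)) := by ring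
  have f2 : b * 2 + b * (1 + 1) + (1 + Y) * b = b * (Y + 5) := by ring
  have f3 : (1 + X) * b * 2 + b * (1 + 1) + (1 + X) * b = b * (3 * X + 5) := by ring
  have f4 : b * 2 + (1 + Y) * b * (1 + 1) + (1 + Y) * b = b * (3 * Y + 5) := by ring
  have f5 : b * 2 + (1 + X) * b * (1 + 1) + (1 + X) * b = b * (3 * X + 5) := by ring
  have f6 : (1 + Y) * b * 2 + b * (1 + 1) + (1 + Y) * b = b * (3 * Y + 5) := by ring
  have f7 : b * 2 + b * (1 + 1) + (1 + X) * b = b * (X + 5) := by ring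
  have f8 : (1 + Y) * b * 2 + (1 + Y) * b * (1 + 1) + (1 + Y) * b = b * (5 * (1 + Y)) := by ring
  rw [e3, e4, e5, e6, f1, f2, f3, f4, f5, f6, f7, f8]
  have hX' := hX.ne'
  have hY' := hY.ne'
  have k1 : 0 < X + 3 := by linarith
  have k2 : 0 < Y + 3 := by linarith
  have k3 : 0 < 3 * X + 5 := by linarith
  have k4 : 0 < 3 * Y + 5 := by linarith
  have k5 : 0 < X + 5 := by linarith
  have k6 : 0 < Y + 5 := by linarith
  clear f1 f2 f3 f4 f5 f6 f7 f8 e3 e4 e5 e6
  generalize hA : X + 3 = A at *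
  generalize hB : Y + 3 = B at *
  generalize hC : 3 * X + 5 = C at *
  generalize hD : 3 * Y + 5 = D at *
  generalize hE : X + 5 = E at *
  generalize hF : Y + 5 = F at *
  field_simp
  rw [← hA, ← hB, ← hC, ← hD, ← hE, ← hF]
  ring

lemma law_three_tree (hb : 0 < b) (hX : 0 < 1 + X) (hY : 0 < 1 + Y) :
    law (par2 p b X Y) (h3 0 2) - law (par2 p b X Y) (h3 0 1) =
      p * (1 - p) * (p * (2 / 3 * (Y / (Y + 5)) + 2 * X / ((Y + 3) * (4 * X + 5))) +
        (1 - p) * (2 / 3 * (X / (X + 5)) + 2 * Y / ((X + 3) * (4 * Y + 5)))) := by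
  have g0 : (par2 p b X Y).gam 0 0 ≠ 0 := (mul_pos hX hb).ne'
  have g1 : (par2 p b X Y).gam 1 1 ≠ 0 := (mul_pos hY hb).ne'
  rw [law_h3, law_h3]
  simp only [Fin.sum_univ_two, wt_h2_zero _ _ _ _ g0, wt_h2_zero _ _ _ _ g1, stepP_h2_two,
    stepP_h2_one]
  simp only [par2, Matrix.cons_val_zero, Matrix.cons_val_one, zero_ne_one, if_false, if_true,
    add_zero, mul_one]
  have e1 : X + 3 ≠ 0 := by linarith
  have e2 : Y + 3 ≠ 0 := by linarith
  have e1' : 4 * X + 5 ≠ 0 := by linarith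
  have e2' : 4 * Y + 5 ≠ 0 := by linarith
  have e1'' : X + 5 ≠ 0 := by linarith
  have e2'' : Y + 5 ≠ 0 := by linarith
  have e1a : 2 * X + 5 ≠ 0 := by linarith
  have e2a : 2 * Y + 5 ≠ 0 := by linarith
  have e3 : b * 2 + (1 + Y) * b = b * (Y + 3) := by ring
  have e4 : b * 2 + (1 + X) * b = b * (X + 3) := by ring
  have e5 : (1 + X) * b * 2 + (1 + X) * b = b * (3 * (1 + X)) := by ring
  have e6 : (1 + Y) * b * 2 + (1 + Y) * b = b * (3 * (1 + Y)) := by ring
  have f1 : (1 + X) * b * (2 + 1) + (1 + X) * b + (1 + X) * b = b * (5 * (1 + X)) := by ring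
  have f2 : b * (2 + 1) + b + (1 + Y) * b = b * (Y + 5) := by ring
  have f3 : (1 + X) * b * (2 + 1) + b + (1 + X) * b = b * (4 * X + 5) := by ring
  have f4 : b * (2 + 1) + (1 + Y) * b + (1 + Y) * b = b * (2 * Y + 5) := by ring
  have f5 : b * (2 + 1) + (1 + X) * b + (1 + X) * b = b * (2 * X + 5) := by ring
  have f6 : (1 + Y) * b * (2 + 1) + b + (1 + Y) * b = b * (4 * Y + 5) := by ring
  have f7 : b * (2 + 1) + b + (1 + X) * b = b * (X + 5) := by ring
  have f8 : (1 + Y) * b * (2 + 1) + (1 + Y) * b + (1 + Y) * b = b * (5 * (1 + Y)) := by ring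
  rw [e3, e4, e5, e6, f1, f2, f3, f4, f5, f6, f7, f8]
  have hX' := hX.ne'
  have hY' := hY.ne'
  field_simp
  ring

end

end Pool.Agent.H973.Hpam
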